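import Pool.Agent.MP_776d16_ag.H34G.Spec

/-
Basic operations on very free curves on a weighted hypersurface.
-/

namespace Pool.Agent.MP_776d16_ag.H34G

open Polynomial Pool.Agent.MP_776d16_ag.H34
open MvPolynomial (pderiv IsWeightedHomogeneous)

namespace BasicA

variable {K : Type} [CommRing K]

theorem refl_term2 {x h : K[X]} {e d w : ℕ} (hw : w < d) (hx : x.natDegree ≤ e * (d - w))
    (hh : h.degree < ((e * w - 1 : ℕ) : WithBot ℕ)) :
    reflect (e * d - 1 - 1) (x * h) = reflect (e * (d - w)) x * reflect (e * w - 1 - 1) h := by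
  rcases eq_or_ne h 0 with rfl | h0
  · simp
  have h1 := (natDegree_lt_iff_degree_lt h0).2 hh
  have e1 : e * d = e * (d - w) + e * w := by rw [← Nat.mul_add, Nat.sub_add_cancel hw.le]
  have e2 : e * d - 1 - 1 = e * (d - w) + (e * w - 1 - 1) := by omega
  rw [e2, reflect_mul _ _ hx (by omega)]

theorem pderiv_fermat {ι : Type} [Fintype ι] (a : ι → ℕ) (b : ℕ) (i : ι) :
    pderiv (some i) (fermat K a b) =
      (a i : MvPolynomial (Option ι) K) * MvPolynomial.X (some i) ^ (a i - 1) := by
  classical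
  unfold fermat
  rw [map_sub, map_sum, Finset.sum_eq_single i]
  · rw [MvPolynomial.pderiv_pow, MvPolynomial.pderiv_pow, MvPolynomial.pderiv_X_self,
      MvPolynomial.pderiv_X_of_ne (by simp)]
    simp
  · intro j _ hj
    rw [MvPolynomial.pderiv_pow, MvPolynomial.pderiv_X_of_ne (by simpa using hj), mul_zero]
  · simp

theorem start_unit {ι : Type} [Fintype ι] {W : Option ι → ℕ} {d e : ℕ} (hW : Wg W d)
    {G : MvPolynomial (Option ι) K} {z : Option ι → K[X]} {r π : Option ι → K}
    (h : Crv2 W d e G z r π) :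
    ∃ h : ι → K, ∑ i, MvPolynomial.eval r (pderiv (some i) G) * h i = 1 := by
  have h3 : 0 < e * d - 1 := by
    have := Nat.le_mul_of_pos_left d h.pos
    have := hW.two
    omega
  obtain ⟨H, -, h4⟩ := h.vf 1 (degree_one_le.trans_lt (by exact_mod_cast h3))
  refine ⟨fun i => (H i).coeff 0, ?_⟩
  have h5 := congrArg (fun f => coeff f 0) h4
  simp only [coeff_one_zero, finsetSum_coeff, mul_coeff_zero, coeff_zero_aeval, h.start] at h5
  exact h5.symm

end BasicA

open BasicA H34.BasicA

theorem map2 : Map2 := by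
  intro K K' ι _ _ _ W d e G z r π φ h
  refine ⟨h.pos, fun i => natDegree_map_le.trans (h.deg i), fun i => by rw [coeff_map, h.start],
    fun i => by rw [coeff_map, h.stop],
    by rw [← map_aeval_poly, h.eqn, Polynomial.map_zero], fun f hf => ?_⟩
  choose! H hH using fun (j : ℕ) (hj : (j : WithBot ℕ) < ((e * d - 1 : ℕ) : WithBot ℕ)) =>
    h.vf (X ^ j) ((degree_X_pow_le j).trans_lt hj)
  have hj : ∀ j ∈ f.support, (j : WithBot ℕ) < ((e * d - 1 : ℕ) : WithBot ℕ) := fun j hj =>
    (le_degree_of_mem_supp j hj).trans_lt hf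
  refine ⟨fun i => ∑ j ∈ f.support, C (f.coeff j) * (H j i).map φ, fun i => ?_, ?_⟩
  · refine mem_degreeLT.1 (Submodule.sum_mem _ fun j hj' => ?_)
    rw [← smul_eq_C_mul]
    exact Submodule.smul_mem _ _ (mem_degreeLT.2 (degree_map_le.trans_lt ((hH j (hj j hj')).1 i)))
  · simp only [Finset.mul_sum]
    rw [Finset.sum_comm]
    refine (as_sum_support_C_mul_X_pow f).trans (Finset.sum_congr rfl fun j hj' => ?_)
    have h1 := congrArg (Polynomial.map φ) (hH j (hj j hj')).2
    simp only [Polynomial.map_pow, map_X, Polynomial.map_sum, Polynomial.map_mul,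
      map_aeval_poly, ← MvPolynomial.pderiv_map] at h1
    rw [h1, Finset.mul_sum]
    exact Finset.sum_congr rfl fun i _ => by ring

theorem scale2 : Scale2 := by
  intro K ι _ _ W d e hW G hG z r π c hc h
  refine ⟨h.pos, fun i => (natDegree_C_mul_le _ _).trans (h.deg i),
    fun i => by rw [coeff_C_mul, h.start], fun i => by rw [coeff_C_mul, h.stop], ?_,
    fun f hf => ?_⟩
  · simp only [C_pow]
    rw [aeval_scale hG, h.eqn, mul_zero]
  obtain ⟨H, h1, rfl⟩ := h.vf f hf
  refine ⟨fun i => C (c ^ (d - W (some i)))⁻¹ * H i, fun i => ?_,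
    Finset.sum_congr rfl fun i _ => ?_⟩
  · beta_reduce
    rw [← smul_eq_C_mul]
    exact (degree_smul_le _ _).trans_lt (h1 i)
  · have e1 : (C c ^ (d - W (some i)) * C (c ^ (d - W (some i)))⁻¹ : K[X]) = 1 := by
      rw [← C_pow, ← C_mul, mul_inv_cancel₀ (pow_ne_zero _ hc), C_1]
    have e2 := aeval_scale (homog_pderiv hG (some i) (hW.lt i).le) (C c : K[X]) z
    simp only [← C_pow] at e1 e2 ⊢
    rw [e2]
    linear_combination (-(MvPolynomial.aeval z (pderiv (some i) G) * H i)) * e1

theorem reflect2 : Reflect2 := by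
  intro K ι _ _ W d e hW G hG z r π h
  refine ⟨h.pos, fun i => natDegree_reflect_le.trans (max_le le_rfl (h.deg i)),
    fun i => by rw [coeff_reflect, revAt_zero, h.stop],
    fun i => by rw [coeff_reflect, revAt_le le_rfl, Nat.sub_self, h.start], ?_, fun f hf => ?_⟩
  · rw [← reflect_aeval hG h.deg, h.eqn, reflect_zero]
  obtain ⟨H, h1, h2⟩ := h.vf _ (refl_deg hf)
  refine ⟨fun i => reflect (e * W (some i) - 1 - 1) (H i), fun i => refl_deg (h1 i), ?_⟩
  rw [← reflect_reflect (N := e * d - 1 - 1) (p := f), h2, refl_sum]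
  refine Finset.sum_congr rfl fun i _ => ?_
  have hp := homog_pderiv hG (some i) (hW.lt i).le
  rw [refl_term2 (hW.lt i) (natDegree_aeval_le hp h.deg) (h1 i), reflect_aeval hp h.deg]

theorem ends2 : Ends2 := by
  intro K ι _ _ W d e hW G hG z r π h
  refine ⟨?_, ?_, start_unit hW h, start_unit hW (reflect2 K ι W d e hW G hG z r π h)⟩
  · have := coeff_zero_aeval z G
    rw [h.eqn, coeff_zero] at this
    simpa only [h.start] using this.symm
  · have := coeff_top_aeval hG h.deg
    rw [h.eqn, coeff_zero] at this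
    simpa only [h.stop] using this.symm

theorem ofFermat : OfFermat := by
  intro K ι _ _ a b W d e hW x r π t h
  have hp : 0 < e * W none := Nat.mul_pos h.pos (hW.wg.pos none)
  refine ⟨h.pos, fun o => ?_, fun o => ?_, fun o => ?_, ?_, fun f hf => ?_⟩
  · rcases o with _ | i
    · simp
    · exact h.deg i
  · rcases o with _ | i
    · simp
    · exact h.start i
  · rcases o with _ | i
    · simp only [Option.elim_none]
      rw [coeff_C, if_neg hp.ne']
    · exact h.stop i
  · have := h.eqn
    simp only [fermat, map_sub, map_sum, map_pow, MvPolynomial.aeval_X, Option.elim_none,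
      Option.elim_some, this, sub_self]
  · obtain ⟨H, h1, h2⟩ := h.vf f hf
    refine ⟨H, h1, h2.trans (Finset.sum_congr rfl fun i _ => ?_)⟩
    simp only [pderiv_fermat, map_mul, map_natCast, map_pow, MvPolynomial.aeval_X,
      Option.elim_some]

end Pool.Agent.MP_776d16_ag.H34G
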