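import Pool.Agent.MP_776d16_ag.H34G.Spec
import Pool.Agent.MP_776d16_ag.H36.P1

/-
Very free curves on a hypersurface whose reduction is the Fermat member.
-/

namespace Pool.Agent.MP_776d16_ag.H34G

open Polynomial Pool.Agent.MP_776d16_ag.H34
open MvPolynomial (pderiv IsWeightedHomogeneous)

namespace CoreA

lemma rescale {K ι : Type} [Field K] [IsAlgClosed K] [Fintype ι] (w : ι → ℕ) (hw : ∀ i, 0 < w i)
    (O : ValuationSubring K) (r : ι → K) (hr : r ≠ 0) :
    ∃ (c : K) (r' : ι → O), c ≠ 0 ∧ (∀ i, (r' i : K) = c ^ w i * r i) ∧ ∃ j, r' j = 1 := by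
  classical
  choose c hc using fun i => IsAlgClosed.exists_pow_nat_eq (r i)⁻¹ (hw i)
  have hne : (Finset.univ.filter fun i => r i ≠ 0).Nonempty := by
    obtain ⟨i, hi⟩ := Function.ne_iff.1 hr
    exact ⟨i, by simpa using hi⟩
  obtain ⟨j, hj, hmin⟩ := Finset.exists_min_image _ (fun i => O.valuation (c i)) hne
  have hj0 : r j ≠ 0 := by simpa using hj
  have hc0 : ∀ i, r i ≠ 0 → c i ≠ 0 := by
    intro i hi h0
    have := hc i
    rw [h0, zero_pow (hw i).ne'] at this
    exact inv_ne_zero hi this.symm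
  have hmem : ∀ i, c j ^ w i * r i ∈ O := by
    intro i
    by_cases hi : r i = 0
    · rw [hi, mul_zero]; exact O.zero_mem
    · obtain ⟨u, hu⟩ := (O.valuation_le_iff _ _).1 (hmin i (by simpa using hi))
      have : c j ^ w i * r i = (u : K) ^ w i := by
        rw [← hu, mul_pow, hc i, mul_assoc, inv_mul_cancel₀ hi, mul_one]
      rw [this]
      exact pow_mem u.2 _
  refine ⟨c j, fun i => ⟨_, hmem i⟩, hc0 j hj0, fun i => rfl, j, Subtype.ext ?_⟩
  change c j ^ w j * r j = 1
  rw [hc j, inv_mul_cancel₀ hj0]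

lemma atD_map {K K' ι : Type} [CommRing K] [CommRing K'] (φ : K →+* K')
    (G : MvPolynomial (Option ι) K) :
    atD (MvPolynomial.map φ G) = MvPolynomial.map φ (atD G) := by
  induction G using MvPolynomial.induction_on with
  | C r => simp [atD]
  | add p q hp hq => simp only [atD, map_add] at hp hq ⊢; rw [hp, hq]
  | mul_X p o hp =>
    simp only [atD, map_mul, MvPolynomial.map_X, MvPolynomial.aeval_X] at hp ⊢
    rw [hp]
    cases o <;> simp

lemma atD_homog {K ι : Type} [CommRing K] {W : Option ι → ℕ} {d : ℕ}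
    {G : MvPolynomial (Option ι) K} (hG : IsWeightedHomogeneous W G d) :
    IsWeightedHomogeneous (fun i => W (some i)) (atD G) d := by
  unfold atD
  induction hG using MvPolynomial.IsWeightedHomogeneous.induction_on with
  | zero => rw [map_zero]; exact MvPolynomial.isWeightedHomogeneous_zero _ _ _
  | add p q _ _ hp hq => rw [map_add]; exact hp.add hq
  | monomial μ r hr =>
    rw [MvPolynomial.aeval_monomial, MvPolynomial.algebraMap_eq, ← hr, Finsupp.weight_apply,
      Finsupp.prod, Finsupp.sum]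
    refine MvPolynomial.IsWeightedHomogeneous.C_mul
      (MvPolynomial.IsWeightedHomogeneous.prod _ _ _ fun o _ => ?_) _
    refine MvPolynomial.IsWeightedHomogeneous.pow ?_ _
    cases o with
    | none => exact MvPolynomial.isWeightedHomogeneous_zero _ _ _
    | some i => exact MvPolynomial.isWeightedHomogeneous_X K (fun i => W (some i)) i

lemma atD_fermat (K : Type) [CommRing K] {ι : Type} [Fintype ι] (a : ι → ℕ) {b : ℕ}
    (hb : b ≠ 0) : atD (fermat K a b) = ∑ i, MvPolynomial.X i ^ a i := by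
  simp [atD, fermat, hb]

end CoreA

open CoreA in
theorem core : Map2 → Scale2 → OfFermat → Spread1 → PTb2 → FermIrr → RedPrime → Move2 → Core := by
  intro hMap hScale hOf hSp hPT hIrr hRed hMove ι _ a b W d hW
  obtain ⟨p, hp, hk⟩ := Pool.Agent.MP_776d16_ag.H36.p1 ι a (fun i => W (some i)) d hW.wt
  refine ⟨p, hp, ?_⟩
  intro K _ _ O hO G hG hmax r1 r2 h1 h2 e1 e2
  have hb : b ≠ 0 := fun h => hW.wt.pos.ne' (by rw [← hW.mul, h, zero_mul])
  let k0 := AlgebraicClosure (IsLocalRing.ResidueField O)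
  have hρ : ∀ y ∈ IsLocalRing.maximalIdeal O, algebraMap O k0 y = 0 := by
    intro y hy
    rw [IsScalarTower.algebraMap_apply O (IsLocalRing.ResidueField O) k0,
      IsLocalRing.ResidueField.algebraMap_eq, (IsLocalRing.residue_eq_zero_iff y).2 hy, map_zero]
  have hchar : CharP k0 p := by
    rw [CharP.charP_iff_prime_eq_zero hp]
    simpa using hρ _ hO
  have hGf : MvPolynomial.map (algebraMap O k0) G = fermat k0 a b := by
    rw [← fermat_map (algebraMap O k0), ← sub_eq_zero, ← map_sub]
    ext μ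
    rw [MvPolynomial.coeff_map, hρ _ (hmax μ), MvPolynomial.coeff_zero]
  have hGK := homog_map O.subtype hG
  have one : ∀ r : Option ι → K, r ≠ 0 →
      MvPolynomial.eval r (MvPolynomial.map O.subtype G) = 0 → (∃ i, (a i : k0) ≠ 0) ∧
      ∃ (e : ℕ) (z : Option ι → K[X]) (π : Option ι → K),
        Crv2 W d e (MvPolynomial.map O.subtype G) z r π ∧ z none = C (r none) := by
    intro r hr er
    obtain ⟨c, r', hc, hr', j, hj⟩ := rescale W hW.wg.pos O r hr
    have er' : MvPolynomial.eval r' G = 0 := by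
      apply O.subtype_injective
      rw [← eval_map_hom, map_zero]
      simp only [ValuationSubring.coe_subtype, hr']
      rw [eval_scale hGK, er, mul_zero]
    have e0 : ∑ i, algebraMap O k0 (r' (some i)) ^ a i = algebraMap O k0 (r' none) ^ b := by
      have := eval_map_hom (algebraMap O k0) r' G
      rw [er', map_zero, hGf] at this
      simpa [fermat, sub_eq_zero] using this
    have hr0 : (fun i => algebraMap O k0 (r' (some i))) ≠ 0 := by
      intro h
      have h3 : ∀ i, algebraMap O k0 (r' (some i)) = 0 := congrFun h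
      have h4 : algebraMap O k0 (r' none) = 0 := by
        refine pow_eq_zero_iff hb |>.1 (e0.symm.trans (Finset.sum_eq_zero fun i _ => ?_))
        rw [h3, zero_pow (by have := hW.wt.two i; omega)]
      have h5 : algebraMap O k0 (r' j) = 0 := by
        cases j with
        | none => exact h4
        | some i => exact h3 i
      rw [hj, map_one] at h5
      exact one_ne_zero h5
    obtain ⟨e, x0, π0, hx0⟩ := hk k0 _ hr0
    constructor
    · obtain ⟨h, hh⟩ := (crvEnds k0 ι a _ d e hW.wt _ _ _ _ hx0).2.2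
      by_contra hn
      push Not at hn
      simp [hn] at hh
    rw [e0] at hx0
    have hz0 := hOf k0 ι a b W d e hW _ _ _ _ hx0
    have e3 : (fun o : Option ι => o.elim (algebraMap O k0 (r' none))
        fun i => algebraMap O k0 (r' (some i))) = fun o => algebraMap O k0 (r' o) := by
      funext o
      cases o <;> rfl
    rw [e3, ← hGf] at hz0
    obtain ⟨A, _, _, hflat, hfp, ⟨φ⟩, z, π, hz, hzn⟩ :=
      hSp O ι W d e hW.wg G hG r' er' k0 _ _ hz0 rfl
    obtain ⟨ψ⟩ := hPT K O A (fun u v h => Subtype.ext h) hflat inferInstance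
      (φ : A →+* k0).domain_nontrivial
    have hψ : ∀ y : O, (ψ : A →+* K) (algebraMap O A y) = (y : K) := fun y => ψ.commutes y
    have h3 := hMap A K ι W d e _ _ _ _ (ψ : A →+* K) hz
    have e4 : (ψ : A →+* K).comp (algebraMap O A) = O.subtype := RingHom.ext hψ
    rw [MvPolynomial.map_map, e4] at h3
    have h4 := hScale K ι W d e hW.wg _ hGK _ _ _ c⁻¹ (inv_ne_zero hc) h3
    have e5 : ∀ o, c⁻¹ ^ W o * (ψ : A →+* K) (algebraMap O A (r' o)) = r o := by
      intro o
      rw [hψ, hr', ← mul_assoc, ← mul_pow, inv_mul_cancel₀ hc, one_pow, one_mul]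
    rw [funext e5] at h4
    refine ⟨e, _, _, h4, ?_⟩
    rw [hzn, map_C, ← C_mul, e5]
  obtain ⟨ha, n1, z1, π1, c1, t1⟩ := one r1 h1 e1
  obtain ⟨-, n2, z2, π2, c2, t2⟩ := one r2 h2 e2
  have hP : Prime (atD (MvPolynomial.map O.subtype G)) := by
    rw [atD_map]
    refine hRed K k0 ι O (algebraMap O k0) hρ (fun i => W (some i)) d (fun i => hW.wg.pos _) _
      (atD_homog hG) ?_
    rw [← atD_map, hGf, atD_fermat k0 a hb]
    exact hIrr k0 ι a _ d hW.wt ha
  exact hMove K ι W d n1 n2 hW.wg _ hGK hP z1 z2 r1 r2 π1 π2 c1 t1 c2 t2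

end Pool.Agent.MP_776d16_ag.H34G
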