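import Mathlib
import Pool.Agent.MP_776d16_ag.H34.Defs

/-
Weighted hypersurfaces in coordinates `t` (index `none`) and `x i` (index `some i`).
-/

namespace Pool.Agent.MP_776d16_ag.H34G

open MvPolynomial Pool.Agent.MP_776d16_ag.H34

/-- The hypersurface `G = 0` in weighted projective space. -/
def zs {ι : Type} (W : Option ι → ℕ) (G : MvPolynomial (Option ι) ℂ) : Set (WP W) :=
  {p | ∃ (v : Option ι → ℂ) (hv : v ≠ 0), p = WP.mk W v hv ∧ eval v G = 0}

/-- The boundary divisor `t = 0` of the hypersurface `G = 0`. -/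
def zsD {ι : Type} (W : Option ι → ℕ) (G : MvPolynomial (Option ι) ℂ) : Set (WP W) :=
  {p | ∃ (v : Option ι → ℂ) (hv : v ≠ 0), p = WP.mk W v hv ∧ eval v G = 0 ∧ v none = 0}

/-- The polynomial `∑ x i ^ a i - t ^ b`. -/
noncomputable def fermat (K : Type) [CommRing K] {ι : Type} [Fintype ι] (a : ι → ℕ) (b : ℕ) :
    MvPolynomial (Option ι) K :=
  ∑ i, X (some i) ^ a i - X none ^ b

end Pool.Agent.MP_776d16_ag.H34G
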