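import Pool.Agent.MP_776d16_ag.H34G.Spec
import Pool.Agent.MP_776d16_ag.H34.Final

/-
Row Final: from the joining curves to log rational connectedness.
-/

namespace Pool.Agent.MP_776d16_ag.H34G

open Polynomial Pool.Agent.MP_776d16_ag.H34
open MvPolynomial (IsWeightedHomogeneous)
open Pool.Agent.MP_776d16_ag.H34.FinalA (eval_top mk_eq)

namespace FinalA

variable {ι : Type} {W : Option ι → ℕ} {d : ℕ} {G : MvPolynomial (Option ι) ℂ}

lemma none_of_zsD {v : Option ι → ℂ} {hv : v ≠ 0} (h : WP.mk W v hv ∈ zsD W G) :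
    v none = 0 := by
  obtain ⟨u, hu, e, -, h0⟩ := h
  obtain ⟨c, -, hc⟩ := Quotient.exact e.symm
  have := hc none
  simpa [h0] using this

lemma normal (h : Wg W d) (hG : IsWeightedHomogeneous W G d) {p : WP W} (hp : p ∈ zs W G) :
    ∃ (r : Option ι → ℂ) (hv : r ≠ 0), (r none = 0 ∨ r none = 1) ∧
      p = WP.mk _ r hv ∧ MvPolynomial.eval r G = 0 := by
  obtain ⟨v, hv, rfl, hs⟩ := hp
  by_cases h0 : v none = 0
  · exact ⟨v, hv, Or.inl h0, rfl, hs⟩
  · obtain ⟨c, hc⟩ := IsAlgClosed.exists_pow_nat_eq (v none)⁻¹ (h.pos none)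
    have hc0 : c ≠ 0 := by
      rintro rfl
      rw [zero_pow (h.pos none).ne'] at hc
      exact inv_ne_zero h0 hc.symm
    have h1 : c ^ W none * v none = 1 := by rw [hc, inv_mul_cancel₀ h0]
    refine ⟨fun o => c ^ W o * v o, fun h2 => one_ne_zero (h1.symm.trans (congrFun h2 none)),
      Or.inr h1, mk_eq _ _ hc0 fun o => rfl, ?_⟩
    rw [eval_scale hG, hs, mul_zero]

end FinalA

open FinalA

theorem final2 : Final2 := by
  intro ι _ W d h G hG hJ p hp q hq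
  obtain ⟨r2, hr2, hκ, rfl, hs2⟩ := normal h hG hp
  obtain ⟨r1, hv1, hκ1, rfl, hs1⟩ := normal h hG hq.1
  have h11 : r1 none = 1 := hκ1.resolve_left fun e => hq.2 ⟨_, hv1, rfl, hs1, e⟩
  obtain ⟨κ, hκe⟩ : ∃ κ, r2 none = κ := ⟨_, rfl⟩
  rw [hκe] at hκ
  obtain ⟨e, μ, P, he, hμ, hdeg, h0, htop, hsum, hnone, i0, hi0⟩ :=
    hJ r1 r2 κ hκ h11 hκe hr2 hs1 hs2
  have hew : e * W none ≠ 0 := (Nat.mul_pos he (h.pos none)).ne'
  let F : Option ι → MvPolynomial (Fin 2) ℂ := fun o => (P o).homogenize (e * W o)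
  have g2 : ∀ t : Fin 2 → ℂ, t 1 ≠ 0 → ∀ o,
      MvPolynomial.eval t (F o) = (P o).eval (t 0 / t 1) * t 1 ^ (e * W o) :=
    fun t ht o => eval_homogenize (hdeg o) t ht
  have g3 : ∀ t : Fin 2 → ℂ, t 1 = 0 → ∀ o,
      MvPolynomial.eval t (F o) = r2 o * t 0 ^ (e * W o) :=
    fun t ht o => by rw [← htop o]; exact eval_top _ _ t ht
  have g1 : ∀ t : Fin 2 → ℂ,
      MvPolynomial.eval t (F none) = (κ * t 0 + μ * t 1) ^ (e * W none) := by
    intro t
    by_cases h1 : t 1 = 0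
    · rw [g3 t h1, hκe, h1, mul_zero, add_zero, mul_pow]
      rcases hκ with rfl | rfl
      · rw [zero_pow hew]
      · rw [one_pow]
    · rw [g2 t h1, hnone, eval_pow, ← mul_pow]
      congr 1
      simp only [eval_add, eval_mul, eval_C, eval_X]
      field_simp
  have t0 : ∀ t : Fin 2 → ℂ, t ≠ 0 → t 1 = 0 → t 0 ≠ 0 := fun t ht h1 h0 =>
    ht (funext fun j => by fin_cases j <;> assumption)
  -- the zeros of the `t`-coordinate
  have z0 : ∀ t : Fin 2 → ℂ, t ≠ 0 → MvPolynomial.eval t (F none) = 0 →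
      (κ = 0 ∧ t 1 = 0) ∨ (κ = 1 ∧ t 1 ≠ 0 ∧ t 0 / t 1 = -μ) := by
    intro t ht hz
    rw [g1, pow_eq_zero_iff hew] at hz
    rcases hκ with rfl | rfl
    · exact Or.inl ⟨rfl, by simpa [hμ] using hz⟩
    · have h1 : t 1 ≠ 0 := fun h1 => t0 t ht h1 (by simpa [h1] using hz)
      exact Or.inr ⟨rfl, h1, by rw [div_eq_iff h1]; linear_combination hz⟩
  have nz : ∀ t : Fin 2 → ℂ, t ≠ 0 → (fun o => MvPolynomial.eval t (F o)) ≠ 0 := by
    intro t ht hz
    rcases z0 t ht (congrFun hz none) with ⟨-, h1⟩ | ⟨-, h1, h2⟩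
    · refine hr2 (funext fun o => ?_)
      have : _ = (0 : ℂ) := congrFun hz o
      rw [g3 t h1] at this
      exact (mul_eq_zero.1 this).resolve_right (pow_ne_zero _ (t0 t ht h1))
    · have : _ = (0 : ℂ) := congrFun hz (some i0)
      rw [g2 t h1, h2] at this
      exact mul_ne_zero hi0 (pow_ne_zero _ h1) this
  have eqn : ∀ t : Fin 2 → ℂ,
      MvPolynomial.eval (fun o => MvPolynomial.eval t (F o)) G = 0 := by
    intro t
    by_cases h1 : t 1 = 0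
    · have : (fun o => MvPolynomial.eval t (F o)) = fun o => (t 0 ^ e) ^ W o * r2 o :=
        funext fun o => by rw [g3 t h1, ← pow_mul, mul_comm]
      rw [this, eval_scale hG, hs2, mul_zero]
    · have : (fun o => MvPolynomial.eval t (F o)) =
          fun o => (t 1 ^ e) ^ W o * (P o).eval (t 0 / t 1) :=
        funext fun o => by rw [g2 t h1, ← pow_mul, mul_comm]
      rw [this, eval_scale hG, ← eval_aeval_poly, hsum, eval_zero, mul_zero]
  have n10 : (![1, 0] : Fin 2 → ℂ) ≠ 0 := fun h => one_ne_zero (congrFun h 0)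
  have n01 : ∀ s : ℂ, (![s, 1] : Fin 2 → ℂ) ≠ 0 := fun s h => one_ne_zero (congrFun h 1)
  let Γ : Set (WP W) := {p | ∃ (t : Fin 2 → ℂ) (ht : t ≠ 0),
    p = WP.mk _ (fun o => MvPolynomial.eval t (F o)) (nz t ht)}
  have hqΓ : WP.mk _ r1 hv1 ∈ Γ := by
    refine ⟨![0, 1], n01 0, mk_eq _ _ (pow_ne_zero e hμ) fun o => ?_⟩
    rw [g2 _ (by simp), ← pow_mul]
    simpa [← coeff_zero_eq_eval_zero] using h0 o
  have hpΓ : WP.mk _ r2 hr2 ∈ Γ := by
    refine ⟨![1, 0], n10, mk_eq _ _ one_ne_zero fun o => ?_⟩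
    rw [g3 _ (by simp)]; simp
  have inD : ∀ (t : Fin 2 → ℂ) (ht : t ≠ 0), MvPolynomial.eval t (F none) = 0 →
      WP.mk W (fun o => MvPolynomial.eval t (F o)) (nz t ht) ∈ zsD W G :=
    fun t ht hz => ⟨_, nz t ht, rfl, eqn t, hz⟩
  have hsing : ∃ r, Γ ∩ zsD W G = {r} := by
    rcases hκ with rfl | rfl
    · refine ⟨_, Set.eq_singleton_iff_unique_mem.2
        ⟨⟨⟨_, n10, rfl⟩, inD _ n10 (by rw [g1]; simp [hew])⟩, ?_⟩⟩
      rintro _ ⟨⟨t, ht, rfl⟩, hD⟩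
      have hz : MvPolynomial.eval t (F none) = 0 := none_of_zsD hD
      have h1 : t 1 = 0 := ((z0 t ht hz).resolve_right fun h => zero_ne_one h.1).2
      refine (mk_eq _ _ (pow_ne_zero e (t0 t ht h1)) fun o => ?_).symm
      rw [g3 t h1, g3 _ (by simp), ← pow_mul]; simp [mul_comm]
    · refine ⟨_, Set.eq_singleton_iff_unique_mem.2
        ⟨⟨⟨_, n01 (-μ), rfl⟩, inD _ (n01 _) (by rw [g1]; simp [hew])⟩, ?_⟩⟩
      rintro _ ⟨⟨t, ht, rfl⟩, hD⟩
      have hz : MvPolynomial.eval t (F none) = 0 := none_of_zsD hD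
      obtain ⟨-, h1, h2⟩ := (z0 t ht hz).resolve_left fun h => one_ne_zero h.1
      refine (mk_eq _ _ (pow_ne_zero e h1) fun o => ?_).symm
      rw [g2 t h1, g2 _ (by simp), h2, ← pow_mul]; simp [mul_comm]
  refine ⟨Γ, ⟨e, F, fun o => isHomogeneous_homogenize _, nz, rfl, ?_⟩, ?_, hpΓ, hqΓ,
    fun hs => hq.2 (hs hqΓ), hsing⟩
  · obtain ⟨r, hr⟩ := hsing
    have : r ∈ Γ ∩ zsD W G := hr ▸ Set.mem_singleton r
    exact ⟨_, hqΓ, r, this.1, fun e => hq.2 (e ▸ this.2)⟩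
  · rintro _ ⟨t, ht, rfl⟩
    exact ⟨_, nz t ht, rfl, eqn t⟩

end Pool.Agent.MP_776d16_ag.H34G
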