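import Pool.Agent.MP_776d16_ag.H34G.Spec
import Pool.Agent.MP_776d16_ag.H34.Glue
import Pool.Agent.MP_776d16_ag.H34.PT

/-! Row Glue: smoothing a chain of two very free curves on a weighted hypersurface. -/

set_option linter.unusedSectionVars false

namespace Pool.Agent.MP_776d16_ag.H34G

open Polynomial Finset Pool.Agent.MP_776d16_ag.H34 Pool.Agent.MP_776d16_ag.H34.GlueA
open MvPolynomial (pderiv IsWeightedHomogeneous)

namespace GlueA

variable {ι : Type}

/-- first sheet -/
noncomputable def ZP {B : Type} [CommRing B] (W : Option ι → ℕ) (e1 e2 : ℕ) (κ μ ε : B)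
    (c : ι → ℕ → B) : Option ι → B[X]
  | none => (C κ * X + C μ) ^ (e1 * W none + e2 * W none)
  | some i => PP (e1 * W (some i)) (e2 * W (some i)) ε (c i)

/-- second sheet -/
noncomputable def ZQ {B : Type} [CommRing B] (W : Option ι → ℕ) (e1 e2 : ℕ) (ν ε : B)
    (c : ι → ℕ → B) : Option ι → B[X]
  | none => (X + C ν) ^ (e1 * W none + e2 * W none)
  | some i => QQ (e1 * W (some i)) (e2 * W (some i)) ε (c i)

theorem ZP_map {B B' : Type} [CommRing B] [CommRing B'] (ψ : B →+* B') (W : Option ι → ℕ)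
    (e1 e2 : ℕ) (κ μ ε : B) (c : ι → ℕ → B) : (fun o => (ZP W e1 e2 κ μ ε c o).map ψ) =
      ZP W e1 e2 (ψ κ) (ψ μ) (ψ ε) fun i j => ψ (c i j) := by
  funext o
  rcases o with _ | i
  · simp [ZP]
  · exact PP_map _ _ _ _ _

theorem ZQ_map {B B' : Type} [CommRing B] [CommRing B'] (ψ : B →+* B') (W : Option ι → ℕ)
    (e1 e2 : ℕ) (ν ε : B) (c : ι → ℕ → B) : (fun o => (ZQ W e1 e2 ν ε c o).map ψ) =
      ZQ W e1 e2 (ψ ν) (ψ ε) fun i j => ψ (c i j) := by
  funext o
  rcases o with _ | i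
  · simp [ZQ]
  · exact QQ_map _ _ _ _ _

section
variable {R : Type} [CommRing R] (B : Type) [CommRing B] [Algebra R B] {W : Option ι → ℕ}
  {e1 e2 : ℕ} {m : ι → ℕ}

theorem zfP (hm : ∀ i, m i + 1 = e1 * W (some i) + e2 * W (some i)) (κ μ ε : R) (r1 r2 : ι → R)
    (x : ∀ i, Fin (m i) → B) :
    zf ((C κ * X + C μ) ^ (e1 * W none + e2 * W none))
      (fun i => C (ε ^ (e1 * W (some i)) * r1 i) +
        monomial (e1 * W (some i) + e2 * W (some i)) (r2 i))
      (fun i (l : Fin (m i)) => monomial (l + 1) (ε ^ (e1 * W (some i) - (l + 1)))) B x =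
    ZP W e1 e2 (algebraMap R B κ) (algebraMap R B μ) (algebraMap R B ε)
      fun i => GlueA.ext (algebraMap R B (r1 i)) (algebraMap R B (r2 i)) (x i) := by
  funext o
  rcases o with _ | i
  · simp [zf, ZP]
  · exact famP B _ _ _ (hm i) _

theorem zfQ (hm : ∀ i, m i + 1 = e1 * W (some i) + e2 * W (some i)) (ν ε : R) (r1 r2 : ι → R)
    (x : ∀ i, Fin (m i) → B) :
    zf ((X + C ν) ^ (e1 * W none + e2 * W none))
      (fun i => C (ε ^ (e2 * W (some i)) * r2 i) +
        monomial (e1 * W (some i) + e2 * W (some i)) (r1 i))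
      (fun i (l : Fin (m i)) => monomial (e1 * W (some i) + e2 * W (some i) - (l + 1))
        (ε ^ (l + 1 - e1 * W (some i)))) B x =
    ZQ W e1 e2 (algebraMap R B ν) (algebraMap R B ε)
      fun i => GlueA.ext (algebraMap R B (r1 i)) (algebraMap R B (r2 i)) (x i) := by
  funext o
  rcases o with _ | i
  · simp [zf, ZQ]
  · exact famQ B _ _ _ (hm i) _

end

theorem ZP_deg (W : Option ι → ℕ) (e1 e2 : ℕ) (κ μ ε : ℂ) (c : ι → ℕ → ℂ) (o : Option ι) :
    (ZP W e1 e2 κ μ ε c o).natDegree ≤ (e1 + e2) * W o := by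
  rw [add_mul]
  rcases o with _ | i
  · have d1 : (C κ * X + C μ : ℂ[X]).natDegree ≤ 1 := natDegree_linear_le
    exact natDegree_pow_le.trans (by simpa using Nat.mul_le_mul_left _ d1)
  · exact PP_deg _ _ _ _

theorem ZP_zero {W : Option ι → ℕ} {e1 e2 : ℕ} {κ l : ℂ} {c : ι → ℕ → ℂ} {r1 : Option ι → ℂ}
    (h0 : r1 none = 1) (h1 : ∀ i, c i 0 = r1 (some i)) (o : Option ι) :
    (ZP W e1 e2 κ (l ^ e1) (l ^ (e1 + e2)) c o).coeff 0 = (l ^ e1) ^ ((e1 + e2) * W o) * r1 o := by
  rcases o with _ | i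
  · rw [ZP, coeff_zero_eq_eval_zero, h0, add_mul]
    simp
  · rw [ZP, PP_coeff, if_pos (Nat.zero_le _), h1, Nat.sub_zero, ← pow_mul, ← pow_mul]
    congr 2; ring

theorem ZP_top {W : Option ι → ℕ} {e1 e2 : ℕ} {κ μ ε : ℂ} {c : ι → ℕ → ℂ} {r2 : Option ι → ℂ}
    (hκ : κ = 0 ∨ κ = 1) (hp : 0 < e2 * W none) (h0 : r2 none = κ)
    (h1 : ∀ i, c i (e1 * W (some i) + e2 * W (some i)) = r2 (some i)) (o : Option ι) :
    (ZP W e1 e2 κ μ ε c o).coeff ((e1 + e2) * W o) = r2 o := by
  rw [add_mul]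
  rcases o with _ | i
  · have d1 : (C κ * X + C μ : ℂ[X]).natDegree ≤ 1 := natDegree_linear_le
    have e1' := coeff_pow_of_natDegree_le (m := e1 * W none + e2 * W none) d1
    rw [mul_one] at e1'
    rw [ZP, e1', h0, coeff_add, coeff_C_mul, coeff_X_one, coeff_C_succ, mul_one, add_zero]
    rcases hκ with rfl | rfl
    · simp [hp.ne']
    · simp
  · rw [ZP, PP_coeff, if_pos le_rfl, h1]
    simp

theorem final_eq2 {W : Option ι → ℕ} {d e1 e2 : ℕ} {G : MvPolynomial (Option ι) ℂ}
    (hG : IsWeightedHomogeneous W G d) {c : ι → ℕ → ℂ} {κ l : ℂ} (hl : l ≠ 0)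
    (h0 : (MvPolynomial.aeval (ZP W e1 e2 κ (l ^ e1) (l ^ (e1 + e2)) c) G).coeff 0 = 0)
    (h1 : (MvPolynomial.aeval (ZP W e1 e2 κ (l ^ e1) (l ^ (e1 + e2)) c) G).coeff
      (e1 * d + e2 * d) = 0)
    (hP : ∀ J, e1 * d ≤ J → J < e1 * d + e2 * d →
      (MvPolynomial.aeval (ZP W e1 e2 κ (l ^ e1) (l ^ (e1 + e2)) c) G).coeff J = 0)
    (hQ : ∀ J, 0 < J → J < e1 * d →
      (MvPolynomial.aeval (ZQ W e1 e2 (κ * l ^ e2) (l ^ (e1 + e2)) c) G).coeff
        (e1 * d + e2 * d - J) = 0) :
    MvPolynomial.aeval (ZP W e1 e2 κ (l ^ e1) (l ^ (e1 + e2)) c) G = 0 := by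
  have dP := natDegree_aeval_le hG (ZP_deg W e1 e2 κ (l ^ e1) (l ^ (e1 + e2)) c)
  rw [add_mul] at dP
  have flip : ∀ J ≤ e1 * d + e2 * d, (l ^ (e1 + e2)) ^ J *
      (MvPolynomial.aeval (ZP W e1 e2 κ (l ^ e1) (l ^ (e1 + e2)) c) G).coeff J =
      ((l ^ (e1 + e2)) ^ e1) ^ d *
      (MvPolynomial.aeval (ZQ W e1 e2 (κ * l ^ e2) (l ^ (e1 + e2)) c) G).coeff
        (e1 * d + e2 * d - J) := by
    intro J hJ
    refine coeff_flip dP (fun t ht => ?_) hJ
    rw [eval_aeval_poly, eval_aeval_poly, ← add_mul, pow_mul, ← eval_scale hG, ← eval_scale hG]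
    congr 2
    funext o
    rw [← pow_mul, ← pow_mul, add_mul]
    rcases o with _ | i
    · have e : (l ^ (e1 + e2)) ^ (e1 * W none) = (l ^ e1) ^ (e1 * W none + e2 * W none) := by
        rw [← pow_mul, ← pow_mul]; congr 1; ring
      simp only [ZP, ZQ, eval_pow, eval_add, eval_mul, eval_C, eval_X]
      rw [e, ← mul_pow, ← mul_pow]
      congr 1
      rw [pow_add]
      field_simp
      ring
    · exact PQ_eval _ _ _ _ ht
  ext J
  rw [coeff_zero]
  rcases Nat.lt_or_ge (e1 * d + e2 * d) J with h | h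
  · exact coeff_eq_zero_of_natDegree_lt (by omega)
  rcases h.eq_or_lt with rfl | h
  · exact h1
  rcases Nat.lt_or_ge J (e1 * d) with h' | h'
  · rcases Nat.eq_zero_or_pos J with rfl | hJ
    · exact h0
    · have := flip J h.le
      rw [hQ J hJ h', mul_zero] at this
      exact (mul_eq_zero.1 this).resolve_left (pow_ne_zero _ (pow_ne_zero _ hl))
  · exact hP J h' h

theorem tangent2 [Fintype ι] {W : Option ι → ℕ} {d e : ℕ} (hW : Wg W d)
    {G : MvPolynomial (Option ι) ℂ} (hG : IsWeightedHomogeneous W G d) {y : Option ι → ℂ[X]}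
    {v r : Option ι → ℂ} (H : Crv2 W d e G y v r) {h : ι → ℂ}
    (hh : ∑ i, MvPolynomial.eval v (pderiv (some i) G) * h i = 1) (S : ℂ[X])
    (hS : ∀ j, e * d ≤ j → S.coeff j = 0) :
    ∃ hp : ι → ℂ[X], (∀ i j, e * W (some i) ≤ j → (hp i).coeff j = 0) ∧
      (∀ i, (hp i).coeff 0 = S.coeff 0 * h i) ∧
      ∑ i, MvPolynomial.aeval y (pderiv (some i) G) * hp i = S := by
  have hw : ∀ i, 0 < e * W (some i) := fun i => Nat.mul_pos H.pos (hW.pos _)
  set F : ℂ[X] := S - ∑ i, MvPolynomial.aeval y (pderiv (some i) G) * C (S.coeff 0 * h i) with hF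
  have F0 : F.coeff 0 = 0 := by
    have : ∀ i, (MvPolynomial.aeval y (pderiv (some i) G) * C (S.coeff 0 * h i)).coeff 0
        = S.coeff 0 * (MvPolynomial.eval v (pderiv (some i) G) * h i) := fun i => by
      rw [coeff_mul_C, coeff_zero_aeval, funext H.start]
      ring
    rw [hF, coeff_sub, finsetSum_coeff]
    simp only [this]
    rw [← mul_sum, hh, mul_one, sub_self]
  have F1 : ∀ j, e * d ≤ j → F.coeff j = 0 := by
    intro j hj
    rw [hF, coeff_sub, hS j hj, finsetSum_coeff, sum_eq_zero, sub_zero]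
    intro i _
    rw [coeff_mul_C, coeff_eq_zero_of_natDegree_lt, zero_mul]
    have h1 := natDegree_aeval_le (homog_pderiv hG (some i) (hW.lt i).le) H.deg
    have h2 : e * (d - W (some i)) + e * W (some i) = e * d := by
      rw [← mul_add, Nat.sub_add_cancel (hW.lt i).le]
    have := hw i
    omega
  obtain ⟨h', d', e'⟩ := H.vf F.divX (by
    rw [degree_lt_iff_coeff_zero]
    intro j hj
    rw [coeff_divX]
    exact F1 _ (by omega))
  refine ⟨fun i => C (S.coeff 0 * h i) + X * h' i, fun i j hj => ?_, fun i => by simp, ?_⟩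
  · have := hw i
    obtain ⟨j, rfl⟩ : ∃ k, j = k + 1 := ⟨j - 1, by omega⟩
    rw [coeff_add, coeff_C_succ, coeff_X_mul, zero_add]
    exact (degree_lt_iff_coeff_zero _ _).1 (d' i) j (by omega)
  · have e2 : X * F.divX = F := by
      have := X_mul_divX_add F
      rwa [F0, C_0, add_zero] at this
    have e3 : S = F + ∑ i, MvPolynomial.aeval y (pderiv (some i) G) * C (S.coeff 0 * h i) := by
      rw [hF]; ring
    refine Eq.trans ?_ e3.symm
    rw [← e2, e', mul_sum, ← sum_add_distrib]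
    exact sum_congr rfl fun i _ => by ring

end GlueA

open GlueA in
theorem glue2 : Ends2 → SL2 → Glue2 := by
  intro hE hSL ι _ W d e1 e2 hW G hG y1 y2 v r1 r2 κ hκ H1 T1 H2 T2
  obtain ⟨-, E1, ⟨h, hh⟩, -⟩ := hE ℂ ι W d e1 hW G hG y1 v r1 H1
  obtain ⟨-, E2, -⟩ := hE ℂ ι W d e2 hW G hG y2 v r2 H2
  have hn1 : ∀ o, 0 < e1 * W o := fun o => Nat.mul_pos H1.pos (hW.pos o)
  have hn2 : ∀ o, 0 < e2 * W o := fun o => Nat.mul_pos H2.pos (hW.pos o)
  have hN1 : 0 < e1 * d := Nat.mul_pos H1.pos (by have := hW.two; omega)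
  have hN2 : 0 < e2 * d := Nat.mul_pos H2.pos (by have := hW.two; omega)
  have r1n : r1 none = 1 := by rw [← H1.stop, T1, coeff_X_pow_self]
  have r2n : r2 none = κ := by rw [← H2.stop, T2, coeff_C_mul, coeff_X_pow_self, mul_one]
  have vn : v none = 0 := by rw [← H1.start, T1, coeff_X_pow, if_neg (hn1 none).ne]
  have aw : ∀ e i, e * (d - W (some i)) + e * W (some i) = e * d := fun e i => by
    rw [← mul_add, Nat.sub_add_cancel (hW.lt i).le]
  obtain ⟨m, hm⟩ : ∃ m : ι → ℕ, ∀ i, m i + 1 = e1 * W (some i) + e2 * W (some i) :=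
    ⟨fun i => e1 * W (some i) + e2 * W (some i) - 1, fun i => by
      have := hn1 (some i); dsimp only; omega⟩
  let _ : Algebra ℂ[X] ℂ := (evalRingHom 0).toAlgebra
  have alg0 : algebraMap ℂ[X] ℂ = evalRingHom 0 := rfl
  have algε : algebraMap ℂ[X] ℂ (X ^ (e1 + e2)) = 0 := by
    have := H1.pos
    rw [alg0]; simp; omega
  have algC : ∀ z : ℂ, algebraMap ℂ[X] ℂ (C z) = z := fun z => by rw [alg0]; simp
  have z1 : algebraMap ℂ[X] ℂ (X ^ e1) = 0 := by rw [alg0]; simp [H1.pos.ne']
  have z2 : algebraMap ℂ[X] ℂ (X ^ e2) = 0 := by rw [alg0]; simp [H2.pos.ne']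
  have z3 : algebraMap ℂ[X] ℂ (C κ * X ^ e2) = 0 := by rw [map_mul, z2, mul_zero]
  have hback : ∀ f : ℂ[X] →+* ℂ, (∀ z, f (C z) = z) →
      MvPolynomial.map f (MvPolynomial.map (C : ℂ →+* ℂ[X]) G) = G := fun f hf => by
    rw [MvPolynomial.map_map, show f.comp C = RingHom.id ℂ from RingHom.ext hf,
      MvPolynomial.map_id]
  have v0 : ∀ o, (y2 o).coeff 0 = (y1 o).coeff 0 := fun o => by rw [H1.start, H2.start]
  have sp0 : ∀ i, sp (e1 * W (some i)) (y2 (some i)) (y1 (some i)) 0 = r1 (some i) := fun i => by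
    simp [sp, H1.stop]
  have sp1 : ∀ i, sp (e1 * W (some i)) (y2 (some i)) (y1 (some i)) (m i + 1) = r2 (some i) :=
    fun i => by
      have := hn2 (some i)
      rw [sp, hm i, if_neg (by omega), Nat.add_sub_cancel_left, H2.stop]
  have xs : ∀ i, ∀ j ≤ e1 * W (some i) + e2 * W (some i), GlueA.ext (r1 (some i)) (r2 (some i))
      (fun l : Fin (m i) => sp (e1 * W (some i)) (y2 (some i)) (y1 (some i)) (l + 1)) j
        = sp (e1 * W (some i)) (y2 (some i)) (y1 (some i)) j := fun i j hj => by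
    rw [← sp0 i, ← sp1 i]; exact ext_eq _ (by rw [hm i]; exact hj)
  have spP : ZP W e1 e2 κ 0 0 (fun i => GlueA.ext (r1 (some i)) (r2 (some i))
      fun l : Fin (m i) => sp (e1 * W (some i)) (y2 (some i)) (y1 (some i)) (l + 1)) =
      fun o => (X ^ e1) ^ W o * y2 o := by
    funext o
    rw [← pow_mul]
    rcases o with _ | i
    · rw [ZP, T2, C_0, add_zero]
      rcases hκ with rfl | rfl
      · simp [(hn2 none).ne']
      · simp [pow_add]
    · exact PP_zero (v0 _) (H2.deg _) (xs _)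
  have spQ : ZQ W e1 e2 0 0 (fun i => GlueA.ext (r1 (some i)) (r2 (some i))
      fun l : Fin (m i) => sp (e1 * W (some i)) (y2 (some i)) (y1 (some i)) (l + 1)) =
      fun o => (X ^ e2) ^ W o * y1 o := by
    funext o
    rw [← pow_mul]
    rcases o with _ | i
    · rw [ZQ, T1, C_0, add_zero, ← pow_add, add_comm]
    · exact QQ_zero (H1.deg _) (xs _)
  obtain ⟨A, _, _, hfl, hfp, x, φ, hφ, hsol, -⟩ := hSL ℂ[X] ι (Fin (e1 * d + e2 * d - 1))
    (MvPolynomial.map (C : ℂ →+* ℂ[X]) G) m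
    (fun b => if e1 * d ≤ b + 1 then
        (C (C κ) * X + C (X ^ e1) : ℂ[X][X]) ^ (e1 * W none + e2 * W none)
      else (X + C (C κ * X ^ e2) : ℂ[X][X]) ^ (e1 * W none + e2 * W none))
    (fun b => if e1 * d ≤ b + 1 then fun i =>
        C ((X ^ (e1 + e2)) ^ (e1 * W (some i)) * C (r1 (some i))) +
          monomial (e1 * W (some i) + e2 * W (some i)) (C (r2 (some i)))
      else fun i => C ((X ^ (e1 + e2)) ^ (e2 * W (some i)) * C (r2 (some i))) +
          monomial (e1 * W (some i) + e2 * W (some i)) (C (r1 (some i))))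
    (fun b => if e1 * d ≤ b + 1 then fun i (l : Fin (m i)) =>
        monomial (l + 1) ((X ^ (e1 + e2)) ^ (e1 * W (some i) - (l + 1)))
      else fun i (l : Fin (m i)) => monomial (e1 * W (some i) + e2 * W (some i) - (l + 1))
        ((X ^ (e1 + e2)) ^ (l + 1 - e1 * W (some i))))
    (fun b => if e1 * d ≤ b + 1 then b + 1 else e1 * d + e2 * d - (b + 1))
    ℂ (fun i l => sp (e1 * W (some i)) (y2 (some i)) (y1 (some i)) (l + 1)) (by
      constructor
      · intro b
        by_cases hb : e1 * d ≤ b + 1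
        · simp only [if_pos hb]
          rw [zfP ℂ hm, hback _ algC]
          simp only [algε, algC, z1]
          rw [spP, aeval_scale hG, H2.eqn, mul_zero, coeff_zero]
        · simp only [if_neg hb]
          rw [zfQ ℂ hm, hback _ algC]
          simp only [algε, algC, z3]
          rw [spQ, aeval_scale hG, H1.eqn, mul_zero, coeff_zero]
      · intro u
        let u' : ℕ → ℂ := fun J => if hJ : J - 1 < e1 * d + e2 * d - 1 then u ⟨J - 1, hJ⟩ else 0
        have hu' : ∀ b : Fin (e1 * d + e2 * d - 1), u' (b + 1) = u b := fun b => by simp [u']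
        obtain ⟨hp, dp, cp, ep⟩ := tangent2 hW hG H2 hh
          (∑ j ∈ range (e2 * d), monomial j (u' (e1 * d + j))) (fun j hj => by
            simp only [finsetSum_coeff, coeff_monomial, sum_ite_eq', mem_range]
            exact if_neg (by omega))
        obtain ⟨hq, dq, cq, eq⟩ := tangent2 hW hG H1 hh
          (∑ j ∈ range (e1 * d), monomial j (u' (e1 * d - j))) (fun j hj => by
            simp only [finsetSum_coeff, coeff_monomial, sum_ite_eq', mem_range]
            exact if_neg (by omega))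
        have c0 : ∀ i, (hp i).coeff 0 = (hq i).coeff 0 := fun i => by
          rw [cp, cq]
          simp [coeff_monomial, hN1, hN2]
        have hs : ∀ i, ∀ j ≤ e1 * W (some i) + e2 * W (some i), GlueA.ext 0 0
            (fun l : Fin (m i) => sp (e1 * W (some i)) (hp i) (hq i) (l + 1)) j
              = sp (e1 * W (some i)) (hp i) (hq i) j := fun i j hj => by
          have s0 : sp (e1 * W (some i)) (hp i) (hq i) 0 = 0 := by simp [sp, dq]
          have s1 : sp (e1 * W (some i)) (hp i) (hq i) (m i + 1) = 0 := by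
            have := hn2 (some i)
            rw [sp, hm i, if_neg (by omega), Nat.add_sub_cancel_left, dp i _ le_rfl]
          have := ext_eq (m := m i) (sp (e1 * W (some i)) (hp i) (hq i)) (j := j)
            (by rw [hm i]; exact hj)
          rwa [s0, s1] at this
        have dp' : ∀ i, (hp i).natDegree ≤ e2 * W (some i) := fun i =>
          natDegree_le_iff_coeff_eq_zero.2 fun j hj => dp i j hj.le
        have dq' : ∀ i, (hq i).natDegree ≤ e1 * W (some i) := fun i =>
          natDegree_le_iff_coeff_eq_zero.2 fun j hj => dq i j hj.le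
        refine ⟨fun i l => sp (e1 * W (some i)) (hp i) (hq i) (l + 1), fun b => ?_⟩
        have hb2 := b.2
        by_cases hb : e1 * d ≤ b + 1
        · simp only [if_pos hb]
          rw [zfP ℂ hm, hback _ algC]
          simp only [algε, algC, z1, famP0 ℂ _ (hm _), PP_zero (c0 _) (dp' _) (hs _)]
          rw [spP]
          have : ∀ i, MvPolynomial.aeval (fun o => (X ^ e1) ^ W o * y2 o) (pderiv (some i) G) *
              (X ^ (e1 * W (some i)) * hp i)
              = X ^ (e1 * d) * (MvPolynomial.aeval y2 (pderiv (some i) G) * hp i) := fun i => by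
            rw [aeval_scale (homog_pderiv hG (some i) (hW.lt i).le), ← aw e1 i, pow_add, pow_mul]
            ring
          simp only [this]
          rw [← mul_sum, ep, coeff_X_pow_mul', if_pos hb]
          simp only [finsetSum_coeff, coeff_monomial, sum_ite_eq', mem_range]
          rw [if_pos (by omega), ← hu']
          congr 1; omega
        · simp only [if_neg hb]
          rw [zfQ ℂ hm, hback _ algC]
          simp only [algε, algC, z3, famQ0 ℂ _ (hm _), QQ_zero (dq' _) (hs _)]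
          rw [spQ]
          have : ∀ i, MvPolynomial.aeval (fun o => (X ^ e2) ^ W o * y1 o) (pderiv (some i) G) *
              (X ^ (e2 * W (some i)) * hq i)
              = X ^ (e2 * d) * (MvPolynomial.aeval y1 (pderiv (some i) G) * hq i) := fun i => by
            rw [aeval_scale (homog_pderiv hG (some i) (hW.lt i).le), ← aw e2 i, pow_add, pow_mul]
            ring
          simp only [this]
          rw [← mul_sum, eq, coeff_X_pow_mul', if_pos (by omega)]
          simp only [finsetSum_coeff, coeff_monomial, sum_ite_eq', mem_range]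
          rw [if_pos (by omega), ← hu']
          congr 1; omega)
  obtain ⟨i1, hi1⟩ : ∃ i, v (some i) ≠ 0 := by
    by_contra hc
    push Not at hc
    have hv : v = 0 := by
      funext o
      rcases o with _ | i
      · exact vn
      · exact hc i
    rw [hv, sum_eq_zero fun i _ => by
      rw [eval_zero_of_pos (homog_pderiv hG (some i) (hW.lt i).le) (by have := hW.lt i; omega),
        zero_mul]] at hh
    exact zero_ne_one hh
  let cA : ι → ℕ → A := fun i =>
    GlueA.ext (algebraMap ℂ[X] A (C (r1 (some i)))) (algebraMap ℂ[X] A (C (r2 (some i)))) (x i)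
  have φc : ∀ j ≤ e1 * W (some i1) + e2 * W (some i1),
      φ (cA i1 j) = sp (e1 * W (some i1)) (y2 (some i1)) (y1 (some i1)) j := by
    intro j hj
    rw [← xs i1 j hj]
    simp only [cA, GlueA.ext]
    split_ifs
    · rw [AlgHom.commutes, algC]
    · exact hφ _ _
    · rw [AlgHom.commutes, algC]
  obtain ⟨l, ψ, hl, hg, hψ⟩ := ptD A hfl inferInstance
    (∑ j ∈ range (e1 * W (some i1) + e2 * W (some i1) + 1), cA i1 j *
      (-algebraMap ℂ[X] A (X ^ e1)) ^ (j - e1 * W (some i1)) *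
      (-algebraMap ℂ[X] A (X ^ e2)) ^ (e1 * W (some i1) - j)) φ (by
      simp only [RingHom.coe_coe, map_sum, map_mul, map_neg, map_pow φ, AlgHom.commutes, z1, z2,
        neg_zero]
      rw [sum_eq_single (e1 * W (some i1)), φc _ (by omega)]
      · simpa [sp, H1.start] using hi1
      · intro j _ hj
        rcases lt_or_gt_of_ne hj with h1 | h1
        · rw [zero_pow (n := e1 * W (some i1) - j) (by omega), mul_zero]
        · rw [zero_pow (n := j - e1 * W (some i1)) (by omega), mul_zero, zero_mul]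
      · intro hj
        exact absurd (mem_range.2 (by omega)) hj)
  have ψε : ψ (algebraMap ℂ[X] A (X ^ (e1 + e2))) = l ^ (e1 + e2) := by rw [hψ]; simp
  have ψκ : ψ (algebraMap ℂ[X] A (C κ)) = κ := by rw [hψ]; simp
  have ψ1 : ψ (algebraMap ℂ[X] A (X ^ e1)) = l ^ e1 := by rw [hψ]; simp
  have ψ2 : ψ (algebraMap ℂ[X] A (C κ * X ^ e2)) = κ * l ^ e2 := by rw [hψ]; simp
  have ψG : MvPolynomial.map ψ (MvPolynomial.map (algebraMap ℂ[X] A)
      (MvPolynomial.map (C : ℂ →+* ℂ[X]) G)) = G := by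
    rw [MvPolynomial.map_map]
    exact hback _ fun z => by rw [RingHom.comp_apply, hψ, eval_C]
  have c0 : ∀ i, ψ (cA i 0) = r1 (some i) := fun i => by simp only [cA]; rw [ext_zero, hψ, eval_C]
  have c1 : ∀ i, ψ (cA i (e1 * W (some i) + e2 * W (some i))) = r2 (some i) := fun i => by
    simp only [cA]; rw [← hm i, ext_top, hψ, eval_C]
  have q0 := ZP_zero (W := W) (e1 := e1) (e2 := e2) (κ := κ) (l := l)
    (c := fun i j => ψ (cA i j)) r1n c0
  have q1 := ZP_top (e1 := e1) (μ := l ^ e1) (ε := l ^ (e1 + e2))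
    (c := fun i j => ψ (cA i j)) hκ (hn2 none) r2n c1
  refine ⟨e1 + e2, l ^ e1, ZP W e1 e2 κ (l ^ e1) (l ^ (e1 + e2)) fun i j => ψ (cA i j),
    by have := H1.pos; omega, pow_ne_zero _ hl, ZP_deg _ _ _ _ _ _ _, q0, q1, ?_,
    by rw [ZP, add_mul], i1, ?_⟩
  · refine final_eq2 hG hl ?_ ?_ ?_ ?_
    · rw [coeff_zero_aeval, funext q0]
      simp only [pow_mul (l ^ e1)]
      rw [eval_scale hG, E1, mul_zero]
    · rw [← add_mul, coeff_top_aeval hG (ZP_deg _ _ _ _ _ _ _), funext q1, E2]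
    · intro J h1 h2
      obtain ⟨J, rfl⟩ : ∃ k, J = k + 1 := ⟨J - 1, by omega⟩
      have := congrArg ψ (hsol ⟨J, by omega⟩)
      simp only [if_pos h1] at this
      rwa [zfP A hm, ← coeff_map, map_aeval_poly, ZP_map, ψG, ψε, ψκ, ψ1, map_zero] at this
    · intro J h1 h2
      obtain ⟨J, rfl⟩ : ∃ k, J = k + 1 := ⟨J - 1, by omega⟩
      have := congrArg ψ (hsol ⟨J, by omega⟩)
      simp only [if_neg (not_le.2 h2)] at this
      rwa [zfQ A hm, ← coeff_map, map_aeval_poly, ZQ_map, ψG, ψε, ψ2, map_zero] at this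
  · rw [ZP, pow_add, PP_eval_neg]
    refine mul_ne_zero (pow_ne_zero _ (neg_ne_zero.2 (pow_ne_zero _ hl))) ?_
    simpa only [map_sum, map_mul, map_neg, map_pow ψ, hψ, eval_pow, eval_X] using hg

end Pool.Agent.MP_776d16_ag.H34G
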