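import Pool.Agent.MP_776d16_ag.H34G.Spec

/- Row Move: the ends of two very free curves can be moved to a common point. -/

namespace Pool.Agent.MP_776d16_ag.H34G

open Polynomial
open MvPolynomial (IsWeightedHomogeneous)

namespace MoveA

lemma eval_atD {K B ι : Type} [CommRing K] [CommRing B] [Algebra K B]
    (G : MvPolynomial (Option ι) K) (π : Option ι → B) (h : π none = 0) :
    MvPolynomial.eval π (MvPolynomial.map (algebraMap K B) G) =
      MvPolynomial.aeval (fun i => π (some i)) (atD G) := by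
  rw [atD, MvPolynomial.comp_aeval_apply, MvPolynomial.eval_map, ← MvPolynomial.aeval_def]
  refine congrArg (fun f => MvPolynomial.aeval f G) (funext fun o => ?_)
  rcases o with _ | i
  · simpa using h
  · simp

lemma map_back {K R ι : Type} [CommRing K] [CommRing R] [Algebra K R] (φ : R →+* K)
    (h : ∀ c, φ (algebraMap K R c) = c) (G : MvPolynomial ι K) :
    MvPolynomial.map φ (MvPolynomial.map (algebraMap K R) G) = G := by
  rw [MvPolynomial.map_map, show φ.comp (algebraMap K R) = RingHom.id K from RingHom.ext h,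
    MvPolynomial.map_id]

lemma spread (hSL : SLpoly2) {K ι : Type} [Field K] [Fintype ι] {W : Option ι → ℕ} {d e : ℕ}
    (hW : Wg W d) {G : MvPolynomial (Option ι) K} (hG : IsWeightedHomogeneous W G d)
    {R : Type} [CommRing R] [Algebra K R] (π : Option ι → R)
    (hπ : MvPolynomial.eval π (MvPolynomial.map (algebraMap K R) G) = 0) (hπ0 : π none = 0)
    (φ : R →ₐ[K] K) {z : Option ι → K[X]} {r π0 : Option ι → K} (hφ : ∀ o, φ (π o) = π0 o)
    (hr : MvPolynomial.eval r G = 0) (hz : Crv2 W d e G z r π0) (hz0 : z none = C (r none)) :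
    ∃ (A : Type) (_ : CommRing A) (_ : Algebra R A), Module.Flat R A ∧ Algebra.FiniteType R A ∧
      Nontrivial A ∧ ∃ y : Option ι → A[X],
        Crv2 W d e (MvPolynomial.map (algebraMap R A) (MvPolynomial.map (algebraMap K R) G)) y
          (fun o => algebraMap R A (algebraMap K R (r o))) (fun o => algebraMap R A (π o)) ∧
        y none = C (algebraMap R A (algebraMap K R (r none))) := by
  let _ : Algebra R K := (φ : R →+* K).toAlgebra
  have halg : ∀ y, algebraMap R K y = φ y := fun y => rfl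
  have hc : ∀ c, algebraMap R K (algebraMap K R c) = c := fun c => φ.commutes c
  obtain ⟨A, _, _, h1, h2, ⟨ψ⟩, h4⟩ := hSL R ι W d e hW _ (homog_map (algebraMap K R) hG)
    (fun o => algebraMap K R (r o)) π (by rw [eval_map_hom, hr, map_zero]) hπ hπ0 K z
    (by rw [map_back _ hc]; simpa only [hc, halg, hφ, AlgHom.commutes, Algebra.algebraMap_self,
      RingHom.id_apply] using hz) (by rw [hc, hz0])
  exact ⟨A, _, _, h1, inferInstance, (ψ : A →+* K).domain_nontrivial, h4⟩

lemma back (hMap : Map2) {K ι : Type} [Field K] [Fintype ι] {W : Option ι → ℕ} {d e : ℕ}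
    {G : MvPolynomial (Option ι) K} {R A : Type} [CommRing R] [Algebra K R] [CommRing A]
    [Algebra R A] (π : Option ι → R) (χ : R →ₐ[K] K) (ψ : A →+* K)
    (hψ : ∀ y, ψ (algebraMap R A y) = χ y) {r : Option ι → K} {y : Option ι → A[X]}
    (hy : Crv2 W d e (MvPolynomial.map (algebraMap R A) (MvPolynomial.map (algebraMap K R) G)) y
      (fun o => algebraMap R A (algebraMap K R (r o))) (fun o => algebraMap R A (π o))) :
    Crv2 W d e G (fun o => (y o).map ψ) r (fun o => χ (π o)) := by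
  have h := hMap A K ι W d e _ _ _ _ ψ hy
  rw [MvPolynomial.map_map, map_back _ fun c => (hψ _).trans (χ.commutes c)] at h
  simpa only [hψ, AlgHom.commutes, Algebra.algebraMap_self, RingHom.id_apply] using h

end MoveA

open MoveA in
theorem move2 : Map2 → Ends2 → SLpoly2 → PTc2 → Move2 := by
  intro hMap hEnds hSL hPT K ι _ _ _ W d e1 e2 hW G hG hP z1 z2 r1 r2 π1 π2 h1 k1 h2 k2
  have hdom : IsDomain (MvPolynomial ι K ⧸ Ideal.span {atD G}) :=
    have := (Ideal.span_singleton_prime hP.ne_zero).2 hP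
    Ideal.Quotient.isDomain _
  let π : Option ι → MvPolynomial ι K ⧸ Ideal.span {atD G} := fun o =>
    o.elim 0 fun i => Ideal.Quotient.mkₐ K _ (MvPolynomial.X i)
  have hπ : MvPolynomial.eval π (MvPolynomial.map (algebraMap K _) G) = 0 := by
    rw [eval_atD G π rfl]
    have : MvPolynomial.aeval (fun i => π (some i)) =
        Ideal.Quotient.mkₐ K (Ideal.span {atD G}) :=
      MvPolynomial.algHom_ext fun i => MvPolynomial.aeval_X _ _
    rw [this]
    exact Ideal.Quotient.eq_zero_iff_mem.2 (Ideal.mem_span_singleton_self _)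
  have huniv : ∀ (e : ℕ) (z : Option ι → K[X]) (r π0 : Option ι → K), Crv2 W d e G z r π0 →
      z none = C (r none) →
      ∃ φ : (MvPolynomial ι K ⧸ Ideal.span {atD G}) →ₐ[K] K, ∀ o, φ (π o) = π0 o := by
    intro e z r π0 h k
    have h0 : π0 none = 0 := by
      rw [← h.stop, k, coeff_C, if_neg (Nat.mul_pos h.pos (hW.pos _)).ne']
    have h3 : MvPolynomial.aeval (fun i => π0 (some i)) (atD G) = 0 := by
      rw [← eval_atD G π0 h0, Algebra.algebraMap_self, MvPolynomial.map_id]
      exact (hEnds K ι W d e hW G hG z r π0 h).2.1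
    refine ⟨Ideal.Quotient.liftₐ _ (MvPolynomial.aeval fun i => π0 (some i)) fun f hf => ?_,
      fun o => ?_⟩
    · obtain ⟨g, rfl⟩ := Ideal.mem_span_singleton'.1 hf
      rw [map_mul, h3, mul_zero]
    · rcases o with _ | i
      · exact (map_zero _).trans h0.symm
      · exact MvPolynomial.aeval_X (R := K) (fun i => π0 (some i)) i
  obtain ⟨φ1, hφ1⟩ := huniv _ _ _ _ h1 k1
  obtain ⟨φ2, hφ2⟩ := huniv _ _ _ _ h2 k2
  obtain ⟨A1, _, _, hf1, ht1, hn1, y1, hy1, l1⟩ := spread hSL hW hG π hπ rfl φ1 hφ1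
    (hEnds K ι W d e1 hW G hG _ _ _ h1).1 h1 k1
  obtain ⟨A2, _, _, hf2, ht2, hn2, y2, hy2, l2⟩ := spread hSL hW hG π hπ rfl φ2 hφ2
    (hEnds K ι W d e2 hW G hG _ _ _ h2).1 h2 k2
  obtain ⟨χ, ψ1, ψ2, hψ1, hψ2⟩ := hPT K _ A1 A2 inferInstance hf1 ht1 hn1 hf2 ht2 hn2
  refine ⟨e1, e2, _, _, _, back hMap π χ ψ1 hψ1 hy1, back hMap π χ ψ2 hψ2 hy2, ?_, ?_⟩
  · rw [l1, map_C, hψ1, χ.commutes]; rfl
  · rw [l2, map_C, hψ2, χ.commutes]; rfl

end Pool.Agent.MP_776d16_ag.H34G
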