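import Pool.Agent.MP_776d16_ag.H34G.Spec

namespace Pool.Agent.MP_776d16_ag.H34G

open Pool.Agent.MP_776d16_ag.H34
open MvPolynomial

namespace OpenA

lemma place {Z K : Type} [CommRing Z] [Field K] (θ : Z →+* K) (J : Ideal Z) (hJ : J ≠ ⊤)
    (hker : RingHom.ker θ ≤ J) :
    ∃ O : ValuationSubring K, (∀ y, θ y ∈ O) ∧ ∀ y ∈ J, θ y ∈ O.nonunits := by
  have hs : Function.Surjective θ.rangeRestrict := θ.rangeRestrict_surjective
  have hI : J.map θ.rangeRestrict ≠ ⊤ := by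
    intro h
    have h1 := Ideal.comap_map_of_surjective θ.rangeRestrict hs J
    rw [h, Ideal.comap_top] at h1
    refine hJ (top_le_iff.1 (h1.le.trans (sup_le le_rfl ?_)))
    intro y hy
    refine hker ?_
    have h2 : θ.rangeRestrict y = 0 := hy
    exact congrArg Subtype.val h2
  obtain ⟨O, hO1, hO2⟩ := Ideal.image_subset_nonunits_valuationSubring _ hI
  exact ⟨O, fun y => hO1 ⟨y, rfl⟩,
    fun y hy => hO2 ⟨_, Ideal.mem_map_of_mem θ.rangeRestrict hy, rfl⟩⟩

section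
variable {σ : Type} (M : Finset (σ →₀ ℕ)) {B B' : Type} [CommRing B] [CommRing B']

/-- the polynomial with coefficients `c` on the monomials in `M` -/
noncomputable def gen (c : (σ →₀ ℕ) → B) : MvPolynomial σ B := ∑ μ ∈ M, monomial μ (c μ)

lemma gen_map (φ : B →+* B') (c : (σ →₀ ℕ) → B) :
    map φ (gen M c) = gen M (fun μ => φ (c μ)) := by
  simp [gen, map_monomial]

open Classical in
lemma coeff_gen (c : (σ →₀ ℕ) → B) (μ : σ →₀ ℕ) :
    coeff μ (gen M c) = if μ ∈ M then c μ else 0 := by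
  simp [gen, coeff_sum, coeff_monomial]

variable {M} {W : σ → ℕ} {d : ℕ}

lemma gen_homog (hM : ∀ μ, μ ∈ M ↔ Finsupp.weight W μ = d) (c : (σ →₀ ℕ) → B) :
    IsWeightedHomogeneous W (gen M c) d :=
  IsWeightedHomogeneous.sum _ _ _ fun μ hμ => isWeightedHomogeneous_monomial _ _ _ ((hM μ).1 hμ)

lemma gen_coeff (hM : ∀ μ, μ ∈ M ↔ Finsupp.weight W μ = d) {G : MvPolynomial σ B}
    (hG : IsWeightedHomogeneous W G d) : gen M (fun μ => coeff μ G) = G := by
  ext μ
  rw [coeff_gen]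
  split_ifs with h
  · rfl
  · exact (hG.coeff_eq_zero μ fun h' => h ((hM μ).2 h')).symm

end

lemma pg_map (hMap : Map2) {K K' ι : Type} [CommRing K] [CommRing K'] [Fintype ι]
    {W : Option ι → ℕ} {d : ℕ} {G : MvPolynomial (Option ι) K} {r1 r2 : Option ι → K}
    (φ : K →+* K') (h : PG W d G r1 r2) :
    PG W d (map φ G) (fun o => φ (r1 o)) (fun o => φ (r2 o)) := by
  obtain ⟨e1, e2, z1, z2, v, h1, h2, h3, h4⟩ := h
  exact ⟨e1, e2, _, _, _, hMap _ _ _ _ _ _ _ _ _ _ φ h1, hMap _ _ _ _ _ _ _ _ _ _ φ h2,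
    by simp [h3], by simp [h4]⟩

lemma exists_dual {σ : Type} [Fintype σ] {r : σ → ℂ} (hr : r ≠ 0) :
    ∃ u : σ → ℂ, ∑ o, u o * r o = 1 := by
  classical
  obtain ⟨o, ho⟩ := Function.ne_iff.1 hr
  refine ⟨Pi.single o (r o)⁻¹, ?_⟩
  rw [Finset.sum_eq_single o (fun o' _ h => by simp [h]) (by simp)]
  simpa using inv_mul_cancel₀ ho

/-- variables: coefficients, two points and two dual vectors -/
abbrev Vr (ι : Type) : Type := (Option ι →₀ ℕ) ⊕ (Fin 4 × Option ι)

/-- the closed conditions -/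
structure On {ι B : Type} [Fintype ι] [CommRing B] (M : Finset (Option ι →₀ ℕ))
    (y : Vr ι → B) : Prop where
  h1 : eval (fun o => y (.inr (0, o))) (gen M fun μ => y (.inl μ)) = 0
  h2 : eval (fun o => y (.inr (1, o))) (gen M fun μ => y (.inl μ)) = 0
  h3 : ∑ o, y (.inr (2, o)) * y (.inr (0, o)) = 1
  h4 : ∑ o, y (.inr (3, o)) * y (.inr (1, o)) = 1

lemma on_of {ι B J : Type} [Fintype ι] [CommRing B] (M : Finset (Option ι →₀ ℕ))
    (y : Vr ι → B) (χ : J → B →+* ℂ) (hχ : ∀ f : B, (∀ j, χ j f = 0) → f = 0)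
    (h : ∀ j, On M fun v => χ j (y v)) : On M y := by
  refine ⟨hχ _ fun j => ?_, hχ _ fun j => ?_, sub_eq_zero.1 (hχ _ fun j => ?_),
    sub_eq_zero.1 (hχ _ fun j => ?_)⟩
  · rw [← eval_map_hom, gen_map]; exact (h j).h1
  · rw [← eval_map_hom, gen_map]; exact (h j).h2
  · simpa only [map_sub, map_sum, map_mul, map_one, sub_eq_zero] using (h j).h3
  · simpa only [map_sub, map_sum, map_mul, map_one, sub_eq_zero] using (h j).h4

lemma On.map {ι B B' : Type} [Fintype ι] [CommRing B] [CommRing B']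
    {M : Finset (Option ι →₀ ℕ)} {y : Vr ι → B} (h : On M y) (φ : B →+* B') :
    On M fun v => φ (y v) := by
  refine ⟨?_, ?_, ?_, ?_⟩
  · rw [← gen_map M φ fun μ => y (.inl μ), eval_map_hom φ fun o => y (.inr (0, o)), h.h1, map_zero]
  · rw [← gen_map M φ fun μ => y (.inl μ), eval_map_hom φ fun o => y (.inr (1, o)), h.h2, map_zero]
  · simpa only [map_sum, map_mul, map_one] using congrArg φ h.h3
  · simpa only [map_sum, map_mul, map_one] using congrArg φ h.h4

lemma generic_pg (hCore : Core) {ι : Type} [Fintype ι] {a : ι → ℕ} {b : ℕ} {W : Option ι → ℕ}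
    {d : ℕ} (hW : Wf a b W d) {M : Finset (Option ι →₀ ℕ)}
    (hM : ∀ μ, μ ∈ M ↔ Finsupp.weight W μ = d) {K : Type} [Field K] [IsAlgClosed K]
    (y : Vr ι → K) (hy : On M y)
    (hker : ∀ q : MvPolynomial (Option ι →₀ ℕ) ℤ,
      eval₂Hom (Int.castRingHom K) (fun μ => y (.inl μ)) q = 0 →
        eval (fun μ => coeff μ (fermat ℤ a b)) q = 0) :
    PG W d (gen M fun μ => y (.inl μ)) (fun o => y (.inr (0, o))) (fun o => y (.inr (1, o))) := by
  obtain ⟨p, hp, hc⟩ := hCore ι a b W d hW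
  have := Fact.mk hp
  let ev : MvPolynomial (Option ι →₀ ℕ) ℤ →+* ZMod p :=
    (Int.castRingHom (ZMod p)).comp (eval fun μ => coeff μ (fermat ℤ a b))
  obtain ⟨O, hO1, hO2⟩ := place (eval₂Hom (Int.castRingHom K) (fun μ => y (.inl μ)))
    (RingHom.ker ev) (RingHom.ker_ne_top ev) (fun q hq => by
      rw [RingHom.mem_ker, RingHom.comp_apply, hker q hq, map_zero])
  have hmem : ∀ μ, y (.inl μ) ∈ O := fun μ => by simpa using hO1 (X μ)
  have hp' : (p : O) ∈ IsLocalRing.maximalIdeal O := by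
    rw [← ValuationSubring.coe_mem_nonunits_iff]
    have := hO2 (p : MvPolynomial (Option ι →₀ ℕ) ℤ) (by simp [RingHom.mem_ker])
    simpa using this
  have hG : map O.subtype (gen M fun μ => (⟨y (.inl μ), hmem μ⟩ : O)) =
      gen M fun μ => y (.inl μ) := by rw [gen_map]; rfl
  have hne : ∀ u r : Option ι → K, ∑ o, u o * r o = 1 → r ≠ 0 := by
    rintro u r h rfl
    simp at h
  rw [← hG]
  refine hc K O hp' _ (gen_homog hM _) (fun μ => ?_) _ _ (hne _ _ hy.h3) (hne _ _ hy.h4)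
    (by rw [hG]; exact hy.h1) (by rw [hG]; exact hy.h2)
  have hF : coeff μ (fermat O a b) = ((coeff μ (fermat ℤ a b) : ℤ) : O) := by
    rw [← fermat_map (Int.castRingHom O), coeff_map]; rfl
  rw [coeff_sub, coeff_gen]
  split_ifs with h
  · rw [← ValuationSubring.coe_mem_nonunits_iff, hF]
    have := hO2 (X μ - C (coeff μ (fermat ℤ a b))) (by simp [RingHom.mem_ker, ev])
    rw [map_sub, eval₂Hom_X', eval₂Hom_C] at this
    simpa using this
  · rw [(fermat_homog O hW).coeff_eq_zero μ fun h' => h ((hM μ).2 h'), sub_zero]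
    exact Ideal.zero_mem _

end OpenA

open OpenA in
theorem open2 : Map2 → Spread → PTo → Core → Open := by
  intro hMap hSpread hPT hCore ι _ a b W d hW
  classical
  by_contra hcon
  push Not at hcon
  let M : Finset (Option ι →₀ ℕ) :=
    (Finsupp.finite_of_nat_weight_eq W (fun o => (hW.wg.pos o).ne') d).toFinset
  have hM : ∀ μ, μ ∈ M ↔ Finsupp.weight W μ = d := fun μ => by simp [M]
  let J : Type := {y : Vr ι → ℂ // On M y ∧ ¬ PG W d (gen M fun μ => y (.inl μ))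
    (fun o => y (.inr (0, o))) (fun o => y (.inr (1, o)))}
  let I : Ideal (MvPolynomial (Vr ι) ℂ) := ⨅ j : J, RingHom.ker (eval j.1)
  have hI : ∀ f, f ∈ I ↔ ∀ j : J, eval j.1 f = 0 := fun f => by
    simp only [I, Ideal.mem_iInf, RingHom.mem_ker]
  let evF : MvPolynomial (Option ι →₀ ℕ) ℂ →+* ℂ := eval fun μ => coeff μ (fermat ℂ a b)
  let T : Submonoid (MvPolynomial (Vr ι) ℂ) :=
    ((nonZeroDivisors ℂ).comap evF).map (rename (R := ℂ) (Sum.inl : _ → Vr ι))
  have hdisj : Disjoint (I : Set (MvPolynomial (Vr ι) ℂ)) T := by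
    rw [Set.disjoint_left]
    rintro _ hf ⟨Δ, hΔ, rfl⟩
    obtain ⟨G, hG, hGΔ, r1, r2, hr1, hr2, h1, h2, hno⟩ :=
      hcon Δ (mem_nonZeroDivisors_iff_ne_zero.1 hΔ)
    obtain ⟨u1, hu1⟩ := exists_dual hr1
    obtain ⟨u2, hu2⟩ := exists_dual hr2
    let y : Vr ι → ℂ := Sum.elim (fun μ => coeff μ G) fun v => ![r1, r2, u1, u2] v.1 v.2
    have hy : gen M (fun μ => y (.inl μ)) = G := gen_coeff hM hG
    have := (hI _).1 hf ⟨y, ⟨by rw [hy]; exact h1, by rw [hy]; exact h2, hu1, hu2⟩,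
      by rw [hy]; exact hno⟩
    rw [eval_rename] at this
    exact hGΔ this
  obtain ⟨𝔭, h𝔭, hle, hdp⟩ := Ideal.exists_le_prime_disjoint I T hdisj
  let K := AlgebraicClosure (FractionRing (MvPolynomial (Vr ι) ℂ ⧸ 𝔭))
  let θ : MvPolynomial (Vr ι) ℂ →+* K :=
    (algebraMap (FractionRing (MvPolynomial (Vr ι) ℂ ⧸ 𝔭)) K).comp
      ((algebraMap (MvPolynomial (Vr ι) ℂ ⧸ 𝔭) _).comp (Ideal.Quotient.mk 𝔭))
  have hθ : ∀ f, θ f = 0 ↔ f ∈ 𝔭 := fun f => by
    simp only [θ, RingHom.comp_apply, map_eq_zero, FaithfulSMul.algebraMap_eq_zero_iff,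
      Ideal.Quotient.eq_zero_iff_mem]
  let R := MvPolynomial (Vr ι) ℂ ⧸ I
  let θ' : R →+* K := Ideal.Quotient.lift I θ fun f hf => (hθ f).2 (hle hf)
  let χ : J → R →+* ℂ := fun j => Ideal.Quotient.lift I (eval j.1) fun f hf => (hI f).1 hf j
  have hχ : ∀ f : R, (∀ j, χ j f = 0) → f = 0 := by
    intro f hf
    obtain ⟨f, rfl⟩ := Ideal.Quotient.mk_surjective f
    exact Ideal.Quotient.eq_zero_iff_mem.2 ((hI f).2 hf)
  let yR : Vr ι → R := fun v => Ideal.Quotient.mk I (X v)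
  have hχy : ∀ j : J, (fun v => χ j (yR v)) = j.1 := fun j => by
    funext v
    exact eval_X (f := j.1) v
  have hyR : On M yR := on_of M yR χ hχ fun j => by rw [hχy]; exact j.2.1
  have hK := generic_pg hCore hW hM (fun v => θ' (yR v)) (hyR.map θ') (by
    intro q hq
    have h1 : θ (rename Sum.inl (map (Int.castRingHom ℂ) q)) = 0 := by
      rw [← hq]
      refine congrFun (congrArg DFunLike.coe (?_ : (θ.comp (rename (R := ℂ)
        (Sum.inl : _ → Vr ι)).toRingHom).comp (map (Int.castRingHom ℂ)) = _)) q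
      refine MvPolynomial.ringHom_ext (fun n => by simp) fun μ => ?_
      simp only [RingHom.comp_apply, map_X, eval₂Hom_X', AlgHom.toRingHom_eq_coe,
        RingHom.coe_coe, rename_X]
      rfl
    have h2 : evF (map (Int.castRingHom ℂ) q) = 0 := by
      by_contra hne
      exact Set.disjoint_left.1 hdp ((hθ _).1 h1)
        ⟨_, mem_nonZeroDivisors_iff_ne_zero.2 hne, rfl⟩
    have h3 : (fun μ => coeff μ (fermat ℂ a b)) =
        fun μ => Int.castRingHom ℂ (coeff μ (fermat ℤ a b)) := by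
      funext μ
      rw [← fermat_map (Int.castRingHom ℂ), coeff_map]
    simp only [evF] at h2
    rw [h3, eval_map_hom] at h2
    exact (Int.cast_eq_zero (α := ℂ)).1 h2)
  let _ : Algebra R K := θ'.toAlgebra
  obtain ⟨A, _, _, hflat, hfp, ⟨φ⟩, hA⟩ := hSpread R ι W d hW.wg (gen M fun μ => yR (.inl μ))
    (gen_homog hM _) _ _ hyR.h1 hyR.h2 K (by rw [gen_map]; exact hK)
  obtain ⟨j, ψ, hψ⟩ := hPT R A J χ hχ hflat hfp φ.toRingHom.domain_nontrivial
  have h1 := pg_map hMap ψ hA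
  rw [gen_map, gen_map] at h1
  simp only [hψ] at h1
  refine j.2.2 ?_
  rw [← hχy j]
  exact h1

end Pool.Agent.MP_776d16_ag.H34G
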