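import Pool.Agent.MP_776d16_ag.H34G.Spec

/-
Row PT: points of flat algebras of finite type with values in algebraically closed fields.
-/

namespace Pool.Agent.MP_776d16_ag.H34G

open TensorProduct

namespace PTA

theorem core0 (K A : Type) [Field K] [IsAlgClosed K] [CommRing A] [Algebra K A]
    [Algebra.FiniteType K A] [Nontrivial A] : Nonempty (A →ₐ[K] K) := by
  obtain ⟨m, hm⟩ := Ideal.exists_maximal A
  let := Ideal.Quotient.field m
  have := finite_of_finite_type_of_isJacobsonRing K (A ⧸ m)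
  exact ⟨(IsAlgClosed.lift : (A ⧸ m) →ₐ[K] K).comp (Ideal.Quotient.mkₐ K m)⟩

theorem core2 (K R A : Type) [Field K] [IsAlgClosed K] [CommRing R] [CommRing A] [Algebra K R]
    [Algebra R A] (h1 : Algebra.FiniteType K R) (h2 : Algebra.FiniteType R A) [Nontrivial A] :
    ∃ (χ : R →ₐ[K] K) (ψ : A →+* K), ∀ y, ψ (algebraMap R A y) = χ y := by
  let : Algebra K A := ((algebraMap R A).comp (algebraMap K R)).toAlgebra
  have : IsScalarTower K R A := IsScalarTower.of_algebraMap_eq fun _ => rfl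
  have : Algebra.FiniteType K A := h1.trans h2
  obtain ⟨ψ⟩ := core0 K A
  exact ⟨ψ.comp (IsScalarTower.toAlgHom K R A), ψ, fun _ => rfl⟩

end PTA

theorem ptB2 : PTb2 := by
  intro K R A _ _ _ _ _ _ hi hf ht hn
  have : Nontrivial (K ⊗[R] A) :=
    (Algebra.TensorProduct.includeRight_injective (B := A) hi).nontrivial
  obtain ⟨ψ⟩ := PTA.core0 K (K ⊗[R] A)
  exact ⟨(ψ.restrictScalars R).comp Algebra.TensorProduct.includeRight⟩

theorem ptC2 : PTc2 := by
  intro K R A1 A2 _ _ _ _ _ _ _ _ _ hR f1 t1 n1 f2 t2 n2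
  have hi : Function.Injective (algebraMap R A1) := by
    rw [injective_iff_map_eq_zero]
    intro r hr
    by_contra h0
    have h := Module.Flat.isSMulRegular_of_nonZeroDivisors (M := A1)
      (mem_nonZeroDivisors_of_ne_zero h0)
    have h1 : r • (1 : A1) = r • (0 : A1) := by
      rw [smul_zero, ← Algebra.algebraMap_eq_smul_one, hr]
    exact one_ne_zero (h h1)
  have : Nontrivial (A1 ⊗[R] A2) :=
    (Algebra.TensorProduct.includeRight_injective (B := A2) hi).nontrivial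
  have t3 : Algebra.FiniteType R (A1 ⊗[R] A2) := t1.trans inferInstance
  obtain ⟨χ, ψ, h⟩ := PTA.core2 K R (A1 ⊗[R] A2) hR t3
  refine ⟨χ, ψ.comp (Algebra.TensorProduct.includeLeft : A1 →ₐ[R] A1 ⊗[R] A2),
    ψ.comp (Algebra.TensorProduct.includeRight : A2 →ₐ[R] A1 ⊗[R] A2), fun y => ?_, fun y => ?_⟩
  · rw [← h, RingHom.comp_apply, RingHom.coe_coe, AlgHom.commutes]
  · rw [← h, RingHom.comp_apply, RingHom.coe_coe, AlgHom.commutes]

theorem ptO : PTo := by
  intro R A J _ _ _ χ hχ hf hp hn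
  have ho : IsOpen (Set.range (PrimeSpectrum.comap (algebraMap R A))) :=
    PrimeSpectrum.isOpenMap_comap_of_hasGoingDown_of_finitePresentation.isOpen_range
  obtain ⟨q⟩ : Nonempty (PrimeSpectrum A) := inferInstance
  obtain ⟨_, ⟨f, rfl⟩, hq, hsub⟩ :=
    PrimeSpectrum.isTopologicalBasis_basic_opens.exists_subset_of_mem_open
      (Set.mem_range_self q) ho
  have f0 : f ≠ 0 := by
    rintro rfl
    exact hq (Ideal.zero_mem _)
  obtain ⟨j, hj⟩ : ∃ j, χ j f ≠ 0 := by
    by_contra hc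
    push Not at hc
    exact f0 (hχ f hc)
  obtain ⟨p, hp'⟩ : ∃ p : PrimeSpectrum R, p.asIdeal = RingHom.ker (χ j) :=
    ⟨⟨RingHom.ker (χ j), RingHom.ker_isPrime _⟩, rfl⟩
  have := p.isPrime
  have hnt : Nontrivial (p.asIdeal.ResidueField ⊗[R] A) :=
    p.nontrivial_iff_mem_rangeComap.2 (hsub (show f ∉ p.asIdeal from hp' ▸ hj))
  have h2 : p.asIdeal.primeCompl ≤ (IsUnit.submonoid ℂ).comap (χ j) :=
    fun x hx => Ne.isUnit fun e => hx (show x ∈ p.asIdeal from hp' ▸ e)
  let : Algebra p.asIdeal.ResidueField ℂ :=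
    (Ideal.ResidueField.lift p.asIdeal (χ j) hp'.le h2).toAlgebra
  obtain ⟨ψ⟩ := ptB2 ℂ p.asIdeal.ResidueField (p.asIdeal.ResidueField ⊗[R] A)
    (RingHom.injective _) inferInstance inferInstance hnt
  refine ⟨j, (ψ : p.asIdeal.ResidueField ⊗[R] A →+* ℂ).comp
    ((Algebra.TensorProduct.includeRight : A →ₐ[R] p.asIdeal.ResidueField ⊗[R] A) :
      A →+* p.asIdeal.ResidueField ⊗[R] A), fun y => ?_⟩
  rw [RingHom.comp_apply, RingHom.coe_coe, RingHom.coe_coe, AlgHom.commutes,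
    IsScalarTower.algebraMap_apply R p.asIdeal.ResidueField, AlgHom.commutes]
  exact Ideal.ResidueField.lift_algebraMap p.asIdeal (χ j) hp'.le h2 y

end Pool.Agent.MP_776d16_ag.H34G
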