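import Pool.Agent.MP_776d16_ag.H34G.Spec
import Pool.Agent.MP_776d16_ag.H34.EndRing

namespace Pool.Agent.MP_776d16_ag.H34G

open Polynomial Pool.Agent.MP_776d16_ag.H34
open MvPolynomial (pderiv IsWeightedHomogeneous)

namespace PrimeA

open EndRingA

theorem sq_der {k σ : Type} [CommRing k] (y : σ → k) (j : σ) {f : MvPolynomial σ k}
    (hf : f ∈ RingHom.ker (MvPolynomial.eval y) ^ 2) :
    MvPolynomial.eval y (MvPolynomial.pderiv j f) = 0 := by
  rw [pow_two] at hf
  refine Submodule.mul_induction_on hf (fun u hu v hv => ?_) (fun u v hu hv => ?_)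
  · rw [RingHom.mem_ker] at hu hv
    simp [Derivation.leibniz, hu, hv]
  · simp [hu, hv]

theorem irred {k ι : Type} [Field k] [IsAlgClosed k] [Fintype ι] [DecidableEq ι] (a : ι → ℕ)
    (ha : ∀ i, 2 ≤ a i) (i0 : ι) (j1 j2 : {i // i ≠ i0}) (h12 : j1 ≠ j2)
    (hk : (a j1 : k) ≠ 0) : Irreducible (GG k a i0) := by
  have h0 : ∀ i, a i ≠ 0 := fun i => by have := ha i; omega
  obtain ⟨ζ, hζ⟩ := IsAlgClosed.exists_pow_nat_eq (-1 : k) (Nat.pos_of_ne_zero (h0 j2))
  set y : {i // i ≠ i0} → k := fun j => if j = j1 then 1 else if j = j2 then ζ else 0 with hy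
  have hm := monic k a i0 (h0 i0)
  have hdeg : (GG k a i0).degree = a i0 := degree_X_pow_add_C (Nat.pos_of_ne_zero (h0 i0)) _
  have hg : MvPolynomial.eval y (gs k a i0) = 0 := by
    rw [gs, map_sum, Finset.sum_eq_add j1 j2 h12]
    · simp [hy, h12.symm, hζ]
    · intro c _ hc
      simp [hy, hc.1, hc.2, h0]
    · simp
    · simp
  refine irreducible_of_eisenstein_criterion (P := RingHom.ker (MvPolynomial.eval y))
    (RingHom.ker_isPrime _) ?_ (fun n hn => ?_) ?_ ?_ hm.isPrimitive
  · rw [hm.leadingCoeff, RingHom.mem_ker, map_one]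
    exact one_ne_zero
  · rw [hdeg] at hn
    have hn' : n ≠ a i0 := ne_of_lt (by exact_mod_cast hn)
    rw [GG, coeff_add, coeff_X_pow, if_neg hn', zero_add, coeff_C]
    split_ifs
    · exact hg
    · exact zero_mem _
  · rw [hdeg]
    exact_mod_cast Nat.pos_of_ne_zero (h0 i0)
  · intro h
    have h1 := sq_der y j1 h
    rw [GG, coeff_add, coeff_X_pow, if_neg (h0 i0).symm, zero_add, coeff_C_zero, gs, map_sum,
      map_sum, Finset.sum_eq_single j1] at h1
    · simp [hy, hk] at h1
    · intro c _ hc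
      simp [MvPolynomial.pderiv_X, hc]
    · simp

theorem transport {k ι : Type} [Field k] [Fintype ι] [DecidableEq ι] (a : ι → ℕ) (i0 : ι)
    (h : Irreducible (GG k a i0)) :
    Irreducible (∑ i, MvPolynomial.X i ^ a i : MvPolynomial ι k) := by
  let e : (MvPolynomial {i // i ≠ i0} k)[X] ≃ₐ[k] MvPolynomial ι k :=
    (MvPolynomial.optionEquivLeft k {i // i ≠ i0}).symm.trans
      (MvPolynomial.renameEquiv k (Equiv.optionSubtypeNe i0))
  have h1 : e (GG k a i0) = ∑ i, MvPolynomial.X i ^ a i := by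
    rw [sum_split i0, GG, gs, map_add, map_pow, map_sum, map_sum]
    congr 1
    · simp [e]
    · exact Finset.sum_congr rfl fun j _ => by simp [e]
  rw [← h1]
  exact (MulEquiv.irreducible_iff e).2 h

/-- a factor with nonzero constant term of a weighted homogeneous polynomial is constant -/
theorem factor_const {K ι : Type} [CommRing K] [IsDomain K] {w : ι → ℕ} {d : ℕ}
    (hw : ∀ i, 0 < w i) {h h' : MvPolynomial ι K} (hg : IsWeightedHomogeneous w (h * h') d)
    (hne : h * h' ≠ 0) (h0 : MvPolynomial.coeff 0 h ≠ 0) :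
    h = MvPolynomial.C (MvPolynomial.coeff 0 h) := by
  let Θ : MvPolynomial ι K →ₐ[K] (MvPolynomial ι K)[X] :=
    MvPolynomial.aeval fun i => X ^ w i * C (MvPolynomial.X i)
  have hC : ∀ f : MvPolynomial ι K,
      MvPolynomial.aeval (fun i => (C (MvPolynomial.X i) : (MvPolynomial ι K)[X])) f = C f := by
    intro f
    induction f using MvPolynomial.induction_on with
    | C r => simp [Polynomial.algebraMap_apply]
    | add p q hp hq => simp only [map_add, hp, hq]
    | mul_X p o hp => simp only [map_mul, hp, MvPolynomial.aeval_X]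
  have h1 : ∀ f : MvPolynomial ι K, (Θ f).eval 1 = f := by
    intro f
    induction f using MvPolynomial.induction_on with
    | C r => simp [Θ, Polynomial.algebraMap_apply]
    | add p q hp hq => simp only [map_add, eval_add, hp, hq]
    | mul_X p o hp =>
      rw [map_mul, eval_mul, hp]
      simp [Θ]
  have hz : ∀ f : MvPolynomial ι K,
      (Θ f).eval 0 = MvPolynomial.C (MvPolynomial.constantCoeff f) := by
    intro f
    induction f using MvPolynomial.induction_on with
    | C r => simp [Θ, Polynomial.algebraMap_apply]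
    | add p q hp hq => simp only [map_add, eval_add, hp, hq]
    | mul_X p o hp =>
      rw [map_mul, eval_mul, hp]
      simp [Θ, (hw o).ne']
  have hΘ : Θ h * Θ h' = monomial d (h * h') := by
    rw [← map_mul, ← C_mul_X_pow_eq_monomial, mul_comm (C _), ← hC]
    exact aeval_scale hg X _
  have hm : (monomial d (h * h') : (MvPolynomial ι K)[X]) ≠ 0 := by
    rwa [Ne, monomial_eq_zero_iff]
  have hp : Θ h ≠ 0 := left_ne_zero_of_mul (hΘ ▸ hm)
  have hq : Θ h' ≠ 0 := right_ne_zero_of_mul (hΘ ▸ hm)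
  have e1 := natDegree_mul hp hq
  have e2 := natTrailingDegree_mul hp hq
  rw [hΘ, natDegree_monomial_eq _ hne] at e1
  rw [hΘ, natTrailingDegree_monomial hne] at e2
  have e3 := (Θ h').natTrailingDegree_le_natDegree
  have e4 : (Θ h).natTrailingDegree = 0 := by
    refine natTrailingDegree_eq_zero.2 (Or.inr ?_)
    rw [coeff_zero_eq_eval_zero, hz]
    exact fun hh => h0 (MvPolynomial.C_eq_zero.1 hh)
  have e5 : (Θ h).natDegree = 0 := by omega
  have e6 := eq_C_of_natDegree_eq_zero e5
  rw [coeff_zero_eq_eval_zero, hz] at e6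
  have e7 := h1 h
  rw [e6, eval_C] at e7
  exact e7.symm

/-- a nonzero polynomial is a constant times a polynomial over `O` with a coefficient `1` -/
theorem normalize {K ι : Type} [Field K] (O : ValuationSubring K) {h : MvPolynomial ι K}
    (hh : h ≠ 0) : ∃ (c : K) (h' : MvPolynomial ι O) (μ : ι →₀ ℕ), c ≠ 0 ∧
      MvPolynomial.coeff μ h' = 1 ∧ h = MvPolynomial.C c * MvPolynomial.map O.subtype h' := by
  classical
  obtain ⟨μ, hμ, hmax⟩ := Finset.exists_max_image h.support
    (fun ν => O.valuation (MvPolynomial.coeff ν h)) (MvPolynomial.support_nonempty.2 hh)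
  have hc : MvPolynomial.coeff μ h ≠ 0 := MvPolynomial.mem_support_iff.1 hμ
  have hmem : ∀ ν, (MvPolynomial.coeff μ h)⁻¹ * MvPolynomial.coeff ν h ∈ O := by
    intro ν
    by_cases hν : ν ∈ h.support
    · rw [← O.valuation_le_one_iff, map_mul, map_inv₀]
      have hv : 0 < O.valuation (MvPolynomial.coeff μ h) :=
        zero_lt_iff.2 ((_root_.map_ne_zero _).2 hc)
      rw [inv_mul_le_iff₀ hv, mul_one]
      exact hmax ν hν
    · rw [MvPolynomial.notMem_support_iff.1 hν, mul_zero]
      exact zero_mem _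
  obtain ⟨h', hh'⟩ : MvPolynomial.C (MvPolynomial.coeff μ h)⁻¹ * h ∈
      Set.range (MvPolynomial.map O.subtype) := by
    rw [MvPolynomial.mem_range_map_iff_coeffs_subset]
    intro c hc'
    obtain ⟨ν, _, rfl⟩ := MvPolynomial.mem_coeffs_iff.1 hc'
    rw [MvPolynomial.coeff_C_mul]
    exact ⟨⟨_, hmem ν⟩, rfl⟩
  refine ⟨MvPolynomial.coeff μ h, h', μ, hc, ?_, ?_⟩
  · apply O.subtype_injective
    rw [← MvPolynomial.coeff_map, hh', MvPolynomial.coeff_C_mul, inv_mul_cancel₀ hc, map_one]
  · rw [hh', ← mul_assoc, ← map_mul, mul_inv_cancel₀ hc, map_one, one_mul]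

end PrimeA

open PrimeA

theorem fermIrr : FermIrr := by
  intro k ι _ _ _ a w d hw ⟨i1, hi1⟩
  classical
  have hcard : 1 < (Finset.univ.erase i1).card := by
    rw [Finset.card_erase_of_mem (Finset.mem_univ _), Finset.card_univ]
    have := hw.card
    omega
  obtain ⟨i0, hi0, i2, hi2, h02⟩ := Finset.one_lt_card.1 hcard
  have h01 : i0 ≠ i1 := Finset.ne_of_mem_erase hi0
  have h21 : i2 ≠ i1 := Finset.ne_of_mem_erase hi2
  exact transport a i0 (irred a hw.two i0 ⟨i1, h01.symm⟩ ⟨i2, h02.symm⟩
    (fun h => h21 (congrArg Subtype.val h).symm) hi1)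

theorem redPrime : RedPrime := by
  intro K k ι _ _ _ O ρ hρ w d hw g hg hirr
  have hinj : Function.Injective (MvPolynomial.map (σ := ι) O.subtype) :=
    MvPolynomial.map_injective _ O.subtype_injective
  have hg0 : MvPolynomial.map O.subtype g ≠ 0 := by
    intro h
    have : g = 0 := hinj (by rw [h, map_zero])
    rw [this, map_zero] at hirr
    exact not_irreducible_zero hirr
  have hG : IsWeightedHomogeneous w (MvPolynomial.map O.subtype g) d := homog_map _ hg
  -- a factor over `O` whose reduction is a unit is a unit over `K`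
  have key : ∀ (f : MvPolynomial ι O) (c : K) (g1 g2 : MvPolynomial ι K), c ≠ 0 →
      MvPolynomial.map O.subtype g = g1 * g2 →
      g1 = MvPolynomial.C c * MvPolynomial.map O.subtype f → IsUnit (MvPolynomial.map ρ f) →
      IsUnit g1 := by
    intro f c g1 g2 hc h12 hf hu
    have h0 : MvPolynomial.coeff 0 g1 ≠ 0 := by
      have h1 := (MvPolynomial.isUnit_iff.1 hu).1.ne_zero
      rw [MvPolynomial.coeff_map] at h1
      have h2 : MvPolynomial.coeff 0 f ≠ 0 := fun h => h1 (by rw [h, map_zero])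
      rw [hf, MvPolynomial.coeff_C_mul, MvPolynomial.coeff_map]
      exact mul_ne_zero hc fun h => h2 (O.subtype_injective (by rw [h, map_zero]))
    rw [factor_const hw (h12 ▸ hG) (h12 ▸ hg0) h0]
    exact (IsUnit.mk0 _ h0).map _
  refine UniqueFactorizationMonoid.irreducible_iff_prime.1 ⟨fun hu => ?_, fun g1 g2 h12 => ?_⟩
  · obtain ⟨c, _, hc⟩ := MvPolynomial.isUnit_iff_eq_C_of_isReduced.1 hu
    have h1 : g = MvPolynomial.C (MvPolynomial.coeff 0 g) := by
      apply hinj
      rw [MvPolynomial.map_C, ← MvPolynomial.coeff_map, hc, MvPolynomial.coeff_zero_C]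
    rw [h1, MvPolynomial.map_C] at hirr
    by_cases h : ρ (MvPolynomial.coeff 0 g) = 0
    · rw [h, map_zero] at hirr
      exact not_irreducible_zero hirr
    · exact hirr.not_isUnit ((IsUnit.mk0 _ h).map _)
  · obtain ⟨c1, f1, μ1, hc1, hf1, e1⟩ := normalize O (left_ne_zero_of_mul (h12 ▸ hg0))
    obtain ⟨c2, f2, μ2, hc2, hf2, e2⟩ := normalize O (right_ne_zero_of_mul (h12 ▸ hg0))
    have hne : ∀ (f : MvPolynomial ι O) (μ : ι →₀ ℕ), MvPolynomial.coeff μ f = 1 →
        MvPolynomial.map ρ f ≠ 0 := by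
      intro f μ hf h
      have := congrArg (MvPolynomial.coeff μ) h
      rw [MvPolynomial.coeff_map, hf, map_one, MvPolynomial.coeff_zero] at this
      exact one_ne_zero this
    have hu0 : c1 * c2 ≠ 0 := mul_ne_zero hc1 hc2
    have hG2 : MvPolynomial.map O.subtype g =
        MvPolynomial.C (c1 * c2) * MvPolynomial.map O.subtype (f1 * f2) := by
      rw [h12, map_mul, map_mul]
      conv_lhs => rw [e1, e2]
      ring
    have huO : c1 * c2 ∈ O := by
      by_contra hn
      have hinv : (c1 * c2)⁻¹ ∈ O := (O.mem_or_inv_mem _).resolve_left hn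
      have hmax : (⟨_, hinv⟩ : O) ∈ IsLocalRing.maximalIdeal O := by
        rw [IsLocalRing.mem_maximalIdeal, mem_nonunits_iff]
        intro hu
        obtain ⟨v, hv⟩ := hu.exists_right_inv
        have h3 : (c1 * c2)⁻¹ * (v : K) = 1 := congrArg Subtype.val hv
        have h4 : c1 * c2 = v := by
          rw [← mul_one (c1 * c2), ← h3, ← mul_assoc, mul_inv_cancel₀ hu0, one_mul]
        exact hn (h4 ▸ v.2)
      have h5 : f1 * f2 = MvPolynomial.C (⟨_, hinv⟩ : O) * g := by
        apply hinj
        rw [map_mul (MvPolynomial.map O.subtype) (MvPolynomial.C _), hG2, MvPolynomial.map_C,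
          ← mul_assoc, ← map_mul]
        have : O.subtype ⟨_, hinv⟩ * (c1 * c2) = 1 := inv_mul_cancel₀ hu0
        rw [this, map_one, one_mul]
      have h6 := congrArg (MvPolynomial.map ρ) h5
      rw [map_mul, map_mul, MvPolynomial.map_C, hρ _ hmax, map_zero, zero_mul] at h6
      exact mul_ne_zero (hne _ _ hf1) (hne _ _ hf2) h6
    have h7 : g = (MvPolynomial.C (⟨_, huO⟩ : O) * f1) * f2 := by
      apply hinj
      rw [hG2, mul_assoc, map_mul (MvPolynomial.map O.subtype) (MvPolynomial.C _),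
        MvPolynomial.map_C]
      rfl
    have h8 := congrArg (MvPolynomial.map ρ) h7
    rw [map_mul] at h8
    rcases hirr.isUnit_or_isUnit h8 with hu | hu
    · rw [map_mul] at hu
      exact Or.inl (key f1 c1 g1 g2 hc1 h12 e1 (isUnit_of_mul_isUnit_right hu))
    · exact Or.inr (key f2 c2 g2 g1 hc2 (h12.trans (mul_comm _ _)) e2 hu)

end Pool.Agent.MP_776d16_ag.H34G
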