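import Pool.Agent.MP_776d16_ag.H34G.Spec
import Pool.Agent.MP_776d16_ag.H34.SLpoly

/-
Row SLpoly: lifting a very free polynomial curve with fixed ends on a weighted hypersurface.
-/

namespace Pool.Agent.MP_776d16_ag.H34G

open Polynomial Pool.Agent.MP_776d16_ag.H34 Pool.Agent.MP_776d16_ag.H34.SLpolyA
open MvPolynomial (pderiv IsWeightedHomogeneous)

namespace SLpolyA

variable {B ι : Type} [CommRing B] [Fintype ι]

lemma tangent_degree2 {W : Option ι → ℕ} {d e : ℕ} (hW : Wg W d) {G : MvPolynomial (Option ι) B}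
    (hG : IsWeightedHomogeneous W G d) (z : Option ι → B[X]) (h : ι → B[X])
    (hz : ∀ o, (z o).natDegree ≤ e * W o)
    (hh : ∀ i, (h i).degree < ((e * W (some i) - 1 : ℕ) : WithBot ℕ)) :
    (∑ i, MvPolynomial.aeval z (pderiv (some i) G) * h i).degree <
      ((e * d - 1 : ℕ) : WithBot ℕ) := by
  rw [← mem_degreeLT]
  refine Submodule.sum_mem _ fun i _ => ?_
  rw [mem_degreeLT]
  by_cases h0 : h i = 0
  · rw [h0, mul_zero, degree_zero]
    exact WithBot.bot_lt_coe _
  have h1 : (h i).natDegree < e * W (some i) - 1 := (natDegree_lt_iff_degree_lt h0).2 (hh i)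
  have h2 : (MvPolynomial.aeval z (pderiv (some i) G) * h i).natDegree ≤
      e * (d - W (some i)) + (h i).natDegree :=
    natDegree_mul_le.trans (Nat.add_le_add_right
      (natDegree_aeval_le (homog_pderiv hG (some i) (hW.lt i).le) hz) _)
  have h3 : e * (d - W (some i)) + e * W (some i) = e * d := by
    rw [← Nat.mul_add, Nat.sub_add_cancel (hW.lt i).le]
  refine degree_le_natDegree.trans_lt ?_
  exact_mod_cast (by omega : (MvPolynomial.aeval z (pderiv (some i) G) * h i).natDegree < e * d - 1)

lemma sum_tangent2 (x h : ι → B[X]) : ∑ i, x i * (X * h i) = X * ∑ i, x i * h i := by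
  rw [Finset.mul_sum]
  exact Finset.sum_congr rfl fun i _ => by ring

end SLpolyA

open SLpolyA

theorem slPoly2 : SL2 → SLpoly2 := by
  intro hSL R ι _ _ W d e hW G hG r π hr hπ hπ0 k0 _ _ z0 h0 ht
  have hw : ∀ o, 1 ≤ e * W o := fun o => Nat.mul_pos h0.pos (hW.pos o)
  have hd : 1 ≤ e * d := Nat.mul_pos h0.pos (by have := hW.two; omega)
  have hx0 : zf (k := fun i => e * W (some i) - 1) (C (r none))
      (fun i => C (r (some i)) + monomial (e * W (some i)) (π (some i)))
      (fun i l => X ^ ((l : ℕ) + 1)) k0 (fun i l => (z0 (some i)).coeff (l + 1)) = z0 := by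
    funext o
    rcases o with _ | i
    · rw [zf, map_C, ht]
    · rw [zf, fam_cv, ← h0.start (some i), ← h0.stop (some i)]
      exact cv_eq (hw _) _ (h0.deg _)
  obtain ⟨A, _, _, hfl, hft, x, φ, -, hs1, hs2⟩ := hSL R ι (Fin (e * d - 1)) G
    (fun i => e * W (some i) - 1) (fun _ => C (r none))
    (fun _ i => C (r (some i)) + monomial (e * W (some i)) (π (some i)))
    (fun _ i l => X ^ ((l : ℕ) + 1)) (fun b => (b : ℕ) + 1) k0
    (fun i l => (z0 (some i)).coeff (l + 1)) (by
      constructor
      · intro b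
        rw [hx0, h0.eqn, coeff_zero]
      · intro v
        obtain ⟨h, hh, hv⟩ := h0.vf (pl v) (pl_degree v)
        refine ⟨fun i l => (h i).coeff l, fun b => ?_⟩
        simp only [hx0, fam_zero, fun i => pl_eq (h i) (hh i)]
        rw [sum_tangent2, ← hv, coeff_X_mul, pl_coeff, dif_pos b.2])
  simp only [fam_zero] at hs1 hs2
  generalize hz : zf (k := fun i => e * W (some i) - 1) (C (r none))
      (fun i => C (r (some i)) + monomial (e * W (some i)) (π (some i)))
      (fun i l => X ^ ((l : ℕ) + 1)) A x = z at hs1 hs2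
  have hz0 : z none = C (algebraMap R A (r none)) := by rw [← hz, zf, map_C]
  have hz1 : ∀ i, z (some i) = cv (e * W (some i)) (algebraMap R A (r (some i)))
      (algebraMap R A (π (some i))) (x i) := fun i => by rw [← hz, zf, fam_cv]
  have hdeg : ∀ o, (z o).natDegree ≤ e * W o := fun o => by
    rcases o with _ | i
    · rw [hz0, natDegree_C]
      exact Nat.zero_le _
    · rw [hz1]
      exact cv_natDegree _ _ _
  have hst : ∀ o, (z o).coeff 0 = algebraMap R A (r o) := fun o => by
    rcases o with _ | i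
    · rw [hz0, coeff_C_zero]
    · rw [hz1, cv_zero (hw _)]
  have hsp : ∀ o, (z o).coeff (e * W o) = algebraMap R A (π o) := fun o => by
    rcases o with _ | i
    · rw [hz0, coeff_C, if_neg (by have := hw none; omega), hπ0, map_zero]
    · rw [hz1, cv_top (hw _)]
  have hGA := homog_map (algebraMap R A) hG
  refine ⟨A, inferInstance, inferInstance, hfl, hft, ⟨φ⟩, z, ⟨h0.pos, hdeg, hst, hsp, ?_, ?_⟩, hz0⟩
  · ext j
    rw [coeff_zero]
    rcases Nat.eq_zero_or_pos j with rfl | hj
    · rw [coeff_zero_aeval]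
      simp only [hst]
      rw [eval_map_hom, hr, map_zero]
    rcases lt_trichotomy j (e * d) with hlt | rfl | hgt
    · have := hs1 ⟨j - 1, by omega⟩
      simp only at this
      rwa [Nat.sub_add_cancel hj] at this
    · rw [coeff_top_aeval hGA hdeg]
      simp only [hsp]
      rw [eval_map_hom, hπ, map_zero]
    · exact coeff_eq_zero_of_natDegree_lt ((natDegree_aeval_le hGA hdeg).trans_lt hgt)
  · intro f hf
    obtain ⟨h, hh⟩ := hs2 fun b => f.coeff b
    refine ⟨fun i => pl (h i), fun i => pl_degree _, ?_⟩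
    rw [← pl_eq f hf, ← pl_eq _ (tangent_degree2 hW hGA z (fun i => pl (h i)) hdeg
      fun i => pl_degree _)]
    congr 1
    funext b
    rw [← hh b, sum_tangent2, coeff_X_mul]

end Pool.Agent.MP_776d16_ag.H34G
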