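import Pool.Agent.MP_776d16_ag.H34G.Spec

/-
Row Spread.
-/

namespace Pool.Agent.MP_776d16_ag.H34G

open Polynomial Pool.Agent.MP_776d16_ag.H34
open MvPolynomial (pderiv IsWeightedHomogeneous)

namespace SpreadA

theorem zf_coeff {R ι : Type} [CommRing R] (B : Type) [CommRing B] [Algebra R B]
    (x : ι → Fin 1 → B) (o : Option ι) :
    (zf (k := fun _ => 1) (0 : R[X]) (fun _ => 0) (fun _ _ => 1) B x o).coeff 0 =
      o.elim 0 fun i => x i 0 := by
  rcases o with _ | i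
  · simp [zf]
  · simp [zf, fam]

theorem map_comp {R A B σ : Type} [CommRing R] [CommRing A] [CommRing B] [Algebra R A]
    [Algebra R B] (g : A →ₐ[R] B) (G : MvPolynomial σ R) :
    MvPolynomial.map (g : A →+* B) (MvPolynomial.map (algebraMap R A) G) =
      MvPolynomial.map (algebraMap R B) G := by
  rw [MvPolynomial.map_map, g.comp_algebraMap]

theorem step (hS : SLpoly2) {R ι : Type} [CommRing R] [Fintype ι] {W : Option ι → ℕ} {d e : ℕ}
    (hW : Wg W d) {G : MvPolynomial (Option ι) R} (hG : IsWeightedHomogeneous W G d)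
    {r : Option ι → R} (hr : MvPolynomial.eval r G = 0) {k0 : Type} [CommRing k0] [Algebra R k0]
    {z0 : Option ι → k0[X]} {π0 : Option ι → k0}
    (hz : Crv2 W d e (MvPolynomial.map (algebraMap R k0) G) z0 (fun o => algebraMap R k0 (r o)) π0)
    (hz0 : z0 none = C (algebraMap R k0 (r none))) {A0 : Type} [CommRing A0] [Algebra R A0]
    (f0 : Module.Flat R A0) (p0 : Algebra.FinitePresentation R A0) (φ : A0 →ₐ[R] k0)
    {π : Option ι → A0} (h0 : π none = 0)
    (hπ : MvPolynomial.eval π (MvPolynomial.map (algebraMap R A0) G) = 0)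
    (hφ : ∀ o, φ (π o) = π0 o) :
    ∃ (A : Type) (_ : CommRing A) (_ : Algebra R A), Module.Flat R A ∧
      Algebra.FinitePresentation R A ∧ ∃ (g : A0 →ₐ[R] A) (φ' : A →ₐ[R] k0),
        (∀ y, φ' (g y) = φ y) ∧ ∃ z : Option ι → A[X],
        Crv2 W d e (MvPolynomial.map (algebraMap R A) G) z (fun o => algebraMap R A (r o))
          (fun o => g (π o)) ∧ z none = C (algebraMap R A (r none)) := by
  let _ : Algebra A0 k0 := (φ : A0 →+* k0).toAlgebra
  have e0 : algebraMap A0 k0 = (φ : A0 →+* k0) := rfl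
  obtain ⟨A, _, _, f1, p1, ⟨ψ⟩, z, c, cz⟩ := hS A0 ι W d e hW _ (homog_map (algebraMap R A0) hG)
    (fun o => algebraMap R A0 (r o)) π (by rw [eval_map_hom, hr, map_zero]) hπ h0 k0 z0
    (by simpa only [e0, map_comp, RingHom.coe_coe, AlgHom.commutes, hφ] using hz)
    (by simpa only [e0, RingHom.coe_coe, AlgHom.commutes] using hz0)
  let _ : Algebra R A := ((algebraMap A0 A).comp (algebraMap R A0)).toAlgebra
  have : IsScalarTower R A0 A := IsScalarTower.of_algebraMap_eq fun _ => rfl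
  have : IsScalarTower R A0 k0 := IsScalarTower.of_algebraMap_eq fun y => (φ.commutes y).symm
  rw [MvPolynomial.map_map] at c
  exact ⟨A, inferInstance, inferInstance, Module.Flat.trans R A0 A,
    Algebra.FinitePresentation.trans R A0 A, IsScalarTower.toAlgHom R A0 A, ψ.restrictScalars R,
    fun y => ψ.commutes y, z, c, cz⟩

theorem first (hE : Ends2) (hM : EndSm) {R ι : Type} [CommRing R] [Fintype ι]
    {W : Option ι → ℕ} {d e : ℕ} (hW : Wg W d) {G : MvPolynomial (Option ι) R}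
    (hG : IsWeightedHomogeneous W G d) {k0 : Type} [CommRing k0] [Algebra R k0]
    {z0 : Option ι → k0[X]} {r0 π0 : Option ι → k0} {t : k0}
    (hz : Crv2 W d e (MvPolynomial.map (algebraMap R k0) G) z0 r0 π0) (hz0 : z0 none = C t) :
    ∃ (A : Type) (_ : CommRing A) (_ : Algebra R A), Module.Flat R A ∧
      Algebra.FinitePresentation R A ∧ ∃ (π : Option ι → A) (φ : A →ₐ[R] k0), π none = 0 ∧
        MvPolynomial.eval π (MvPolynomial.map (algebraMap R A) G) = 0 ∧ ∀ o, φ (π o) = π0 o := by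
  have h := hE k0 ι W d e hW _ (homog_map _ hG) z0 r0 π0 hz
  refine hM R ι G k0 π0 ?_ h.2.1 h.2.2.2
  rw [← hz.stop none, hz0, coeff_C, if_neg (Nat.mul_pos hz.pos (hW.pos none)).ne']

end SpreadA

theorem endSm : SL2 → EndSm := by
  intro hS R ι _ _ G k0 _ _ π0 h0 hG hh
  obtain ⟨h, hh⟩ := hh
  have e0 : (fun o : Option ι => o.elim 0 fun i => π0 (some i)) = π0 := by
    funext o
    rcases o with _ | i
    · exact h0.symm
    · rfl
  obtain ⟨A, _, _, f, p, x, φ, hφ, hx, -⟩ := hS R ι Unit G (fun _ => 1) (fun _ => 0)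
    (fun _ _ => 0) (fun _ _ _ => 1) (fun _ => 0) k0 (fun i _ => π0 (some i))
    ⟨fun _ => by simp only [coeff_zero_aeval, SpreadA.zf_coeff, e0, hG], fun v =>
      ⟨fun i _ => h i * v (), fun _ => by
        simp only [finsetSum_coeff, mul_coeff_zero, coeff_zero_aeval, SpreadA.zf_coeff, e0]
        refine Eq.trans ?_ ((congrArg (· * v ()) hh).trans (one_mul _))
        rw [Finset.sum_mul]
        exact Finset.sum_congr rfl fun i _ => by simp [fam, mul_assoc]⟩⟩
  refine ⟨A, inferInstance, inferInstance, f, p, fun o => o.elim 0 fun i => x i 0, φ, rfl, ?_,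
    fun o => ?_⟩
  · simpa only [coeff_zero_aeval, SpreadA.zf_coeff] using hx ()
  · rcases o with _ | i
    · exact (map_zero φ).trans h0.symm
    · exact hφ i 0

theorem spread1 : Ends2 → EndSm → SLpoly2 → Spread1 := by
  intro hE hM hS R ι _ _ W d e hW G hG r hr k0 _ _ z0 π0 hz hz0
  obtain ⟨A0, _, _, f0, p0, π, φ, h0, hπ, hφ⟩ := SpreadA.first hE hM hW hG hz hz0
  obtain ⟨A, _, _, f1, p1, g, φ', -, z, c, cz⟩ :=
    SpreadA.step hS hW hG hr hz hz0 f0 p0 φ h0 hπ hφ
  exact ⟨A, inferInstance, inferInstance, f1, p1, ⟨φ'⟩, z, _, c, cz⟩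

theorem spread : Map2 → Ends2 → EndSm → SLpoly2 → Spread := by
  intro hP hE hM hS R ι _ _ W d hW G hG r1 r2 hr1 hr2 k0 _ _ hPG
  obtain ⟨e1, e2, z1, z2, v, c1, c2, t1, t2⟩ := hPG
  obtain ⟨A0, _, _, f0, p0, π, φ, h0, hπ, hφ⟩ := SpreadA.first hE hM hW hG c1 t1
  obtain ⟨A1, _, _, f1, p1, g1, φ1, hg1, y1, d1, s1⟩ :=
    SpreadA.step hS hW hG hr1 c1 t1 f0 p0 φ h0 hπ hφ
  obtain ⟨A2, _, _, f2, p2, g2, φ2, -, y2, d2, s2⟩ :=
    SpreadA.step hS hW hG hr2 c2 t2 f1 p1 φ1 (π := fun o => g1 (π o))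
      (by simp only [h0, map_zero]) (hE A1 ι W d e1 hW _ (homog_map _ hG) _ _ _ d1).2.1
      (fun o => (hg1 _).trans (hφ o))
  have d3 := hP A1 A2 ι W d e1 _ _ _ _ (g2 : A1 →+* A2) d1
  simp only [SpreadA.map_comp, RingHom.coe_coe, AlgHom.commutes] at d3
  refine ⟨A2, inferInstance, inferInstance, f2, p2, ⟨φ2⟩, e1, e2, _, y2, _, d3, d2, ?_, s2⟩
  simp only [s1, map_C, RingHom.coe_coe, AlgHom.commutes]

end Pool.Agent.MP_776d16_ag.H34G
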