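import Pool.Agent.MP_776d16_ag.H34G.SL
import Pool.Agent.MP_776d16_ag.H34G.SLpoly
import Pool.Agent.MP_776d16_ag.H34G.Spread
import Pool.Agent.MP_776d16_ag.H34G.Basic
import Pool.Agent.MP_776d16_ag.H34G.PT
import Pool.Agent.MP_776d16_ag.H34G.Prime
import Pool.Agent.MP_776d16_ag.H34G.Move
import Pool.Agent.MP_776d16_ag.H34G.Core
import Pool.Agent.MP_776d16_ag.H34G.Open
import Pool.Agent.MP_776d16_ag.H34G.Glue
import Pool.Agent.MP_776d16_ag.H34G.Final
import Pool.Agent.MP_776d16_ag.H34G.Join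

namespace Pool.Agent.MP_776d16_ag.H34G

theorem open_all : Open :=
  open2 map2 (spread map2 ends2 (endSm sl2) (slPoly2 sl2)) ptO
    (core map2 scale2 ofFermat (spread1 ends2 (endSm sl2) (slPoly2 sl2)) ptB2 fermIrr redPrime
      (move2 map2 ends2 (slPoly2 sl2) ptC2))

end Pool.Agent.MP_776d16_ag.H34G
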