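import Mathlib
import Pool.Agent.MP_776d16_ag.H34G.Main

namespace Pool.Agent.MP_776d16_ag.H34G.FermatOpen

open MvPolynomial Pool.Agent.MP_776d16_ag.H34 Pool.Agent.MP_776d16_ag.H34G

theorem result (m : ℕ) (hm : 4 ≤ m) (a w : Fin m → ℕ) (b w0 d : ℕ) (hd : 0 < d)
    (ha : ∀ i, 2 ≤ a i) (hw : ∀ i, a i * w i = d) (hb : b * w0 = d) (hF : d < ∑ i, w i) :
    ∃ Δ : MvPolynomial (Option (Fin m) →₀ ℕ) ℂ,
      eval (fun μ => coeff μ (fermat ℂ a b)) Δ ≠ 0 ∧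
      ∀ G : MvPolynomial (Option (Fin m)) ℂ, IsWeightedHomogeneous (wts w0 w) G d →
        eval (fun μ => coeff μ G) Δ ≠ 0 →
        LogRC (wts w0 w) (zs (wts w0 w) G) (zsD (wts w0 w) G) :=
  join2 reflect2 (glue2 ends2 sl2) final2 open_all
    ⟨⟨hw, ha, hd, by simpa using hm, hF⟩, hb⟩

end Pool.Agent.MP_776d16_ag.H34G.FermatOpen
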