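import Pool.Agent.MP_776d16_ag.H34G.Spec

namespace Pool.Agent.MP_776d16_ag.H34G

open Polynomial Pool.Agent.MP_776d16_ag.H34
open MvPolynomial (IsWeightedHomogeneous)

theorem join2 (hR : Reflect2) (hG : Glue2) (hF : Final2) (hO : Open) {ι : Type} [Fintype ι]
    {a : ι → ℕ} {b : ℕ} {W : Option ι → ℕ} {d : ℕ} (hW : Wf a b W d) :
    ∃ Δ : MvPolynomial (Option ι →₀ ℕ) ℂ,
      MvPolynomial.eval (fun μ => MvPolynomial.coeff μ (fermat ℂ a b)) Δ ≠ 0 ∧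
      ∀ G : MvPolynomial (Option ι) ℂ, IsWeightedHomogeneous W G d →
        MvPolynomial.eval (fun μ => MvPolynomial.coeff μ G) Δ ≠ 0 →
        LogRC W (zs W G) (zsD W G) := by
  obtain ⟨Δ, hΔ, h⟩ := hO ι a b W d hW
  refine ⟨Δ, hΔ, fun G hGh hGΔ => hF ι W d hW.wg G hGh ?_⟩
  intro r1 r2 κ hκ h1 h2 hr2 e1 e2
  have hr1 : r1 ≠ 0 := by
    rintro rfl
    exact zero_ne_one h1
  obtain ⟨n1, n2, z1, z2, v, c1, c2, t1, t2⟩ := h G hGh hGΔ r1 r2 hr1 hr2 e1 e2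
  refine hG ι W d n1 n2 hW.wg G hGh _ _ v r1 r2 κ hκ (hR ℂ ι W d n1 hW.wg G hGh _ _ _ c1) ?_
    (hR ℂ ι W d n2 hW.wg G hGh _ _ _ c2) ?_
  · rw [t1, h1, reflect_C, C_1, one_mul]
  · rw [t2, h2, reflect_C]

end Pool.Agent.MP_776d16_ag.H34G
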