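import Pool.Agent.MP_776d16_ag.H34G.Spec
import Pool.Agent.MP_776d16_ag.H34.SL

namespace Pool.Agent.MP_776d16_ag.H34G

open Polynomial Pool.Agent.MP_776d16_ag.H34
open Pool.Agent.MP_776d16_ag.H34.SLA (fam_map fam_add fam_smul)
open MvPolynomial (pderiv)

namespace SLA2

lemma taylor {σ K B : Type} [CommRing K] [CommRing B] [Algebra K B] [Fintype σ] (z H : σ → B)
    (hH : ∀ o o', H o * H o' = 0) (G : MvPolynomial σ K) :
    MvPolynomial.aeval (z + H) G =
      MvPolynomial.aeval z G + ∑ o, MvPolynomial.aeval z (pderiv o G) * H o := by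
  classical
  induction G using MvPolynomial.induction_on with
  | C r => simp
  | add p q hp hq =>
    simp only [map_add, hp, hq, add_mul, Finset.sum_add_distrib]
    ring
  | mul_X p o hp =>
    have h1 : (∑ o', MvPolynomial.aeval z (pderiv o' p) * H o') * H o = 0 := by
      rw [Finset.sum_mul]
      exact Finset.sum_eq_zero fun o' _ => by rw [mul_assoc, hH, mul_zero]
    have h2 : ∑ o', MvPolynomial.aeval z (pderiv o' (p * MvPolynomial.X o)) * H o' =
        MvPolynomial.aeval z p * H o + (∑ o', MvPolynomial.aeval z (pderiv o' p) * H o') * z o := by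
      simp only [Derivation.leibniz, smul_eq_mul, map_add, map_mul, MvPolynomial.aeval_X, add_mul,
        Finset.sum_add_distrib, Finset.sum_mul]
      congr 1
      · rw [Finset.sum_eq_single o (fun o' _ ho' => by
          rw [MvPolynomial.pderiv_X_of_ne ho'.symm]; simp) (by simp)]
        simp
      · exact Finset.sum_congr rfl fun o' _ => by ring
    rw [map_mul, map_mul, hp, h2, MvPolynomial.aeval_X, MvPolynomial.aeval_X, Pi.add_apply]
    linear_combination h1

lemma fam_mul {R : Type} [CommRing R] {n n' : ℕ} (p : Fin n → R[X]) (p' : Fin n' → R[X])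
    {B : Type} [CommRing B] [Algebra R B] (h : Fin n → B) (h' : Fin n' → B)
    (hh : ∀ l l', h l * h' l' = 0) : fam 0 p B h * fam 0 p' B h' = 0 := by
  simp only [fam, Polynomial.map_zero, zero_add, Finset.sum_mul_sum]
  refine Finset.sum_eq_zero fun l _ => Finset.sum_eq_zero fun l' _ => ?_
  rw [mul_mul_mul_comm, ← C_mul, hh, C_0, zero_mul]

section
variable {R ι β : Type} [CommRing R] [Fintype ι] (a : MvPolynomial (Option ι) R) (k : ι → ℕ)
  (T : β → R[X]) (P0 : β → ι → R[X]) (p : β → ∀ i, Fin (k i) → R[X]) (pos : β → ℕ)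

/-- value of the system -/
noncomputable def Fv (B : Type) [CommRing B] [Algebra R B] (x : ∀ i, Fin (k i) → B) (b : β) : B :=
  (MvPolynomial.aeval (zf (T b) (P0 b) (p b) B x)
    (MvPolynomial.map (algebraMap R B) a)).coeff (pos b)

/-- tangent map of the system -/
noncomputable def Jl (B : Type) [CommRing B] [Algebra R B] (x : ∀ i, Fin (k i) → B) (b : β) :
    (∀ i, Fin (k i) → B) →ₗ[B] B where
  toFun h := (∑ i, MvPolynomial.aeval (zf (T b) (P0 b) (p b) B x)
      (pderiv (some i) (MvPolynomial.map (algebraMap R B) a)) *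
        fam 0 (p b i) B (h i)).coeff (pos b)
  map_add' h h' := by
    simp only [Pi.add_apply, fam_add, mul_add, Finset.sum_add_distrib, coeff_add]
  map_smul' c h := by
    simp only [Pi.smul_apply, fam_smul, RingHom.id_apply, smul_eq_mul]
    rw [← coeff_C_mul, Finset.mul_sum]
    congr 1
    exact Finset.sum_congr rfl fun i _ => by ring

variable {B B' : Type} [CommRing B] [Algebra R B] [CommRing B'] [Algebra R B']

omit [Fintype ι] in
lemma zf_map (φ : B →ₐ[R] B') (x : ∀ i, Fin (k i) → B) (b : β) :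
    (fun o => (zf (T b) (P0 b) (p b) B x o).map (φ : B →+* B')) =
      zf (T b) (P0 b) (p b) B' (fun i l => φ (x i l)) := by
  have h : (φ : B →+* B').comp (algebraMap R B) = algebraMap R B' := φ.comp_algebraMap
  funext o
  rcases o with _ | i
  · simp only [zf, Polynomial.map_map, h]
  · simp only [zf, fam_map]

omit [Fintype ι] in
lemma Fv_map (φ : B →ₐ[R] B') (x : ∀ i, Fin (k i) → B) (b : β) :
    φ (Fv a k T P0 p pos B x b) = Fv a k T P0 p pos B' (fun i l => φ (x i l)) b := by
  have h : (φ : B →+* B').comp (algebraMap R B) = algebraMap R B' := φ.comp_algebraMap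
  have : φ (Fv a k T P0 p pos B x b) = (φ : B →+* B') (Fv a k T P0 p pos B x b) := rfl
  rw [this, Fv, ← coeff_map, map_aeval_poly, zf_map, MvPolynomial.map_map, h, Fv]

lemma Jl_map (φ : B →ₐ[R] B') (x h : ∀ i, Fin (k i) → B) (b : β) :
    φ (Jl a k T P0 p pos B x b h) =
      Jl a k T P0 p pos B' (fun i l => φ (x i l)) b (fun i l => φ (h i l)) := by
  have h0 : (φ : B →+* B').comp (algebraMap R B) = algebraMap R B' := φ.comp_algebraMap
  have : φ (Jl a k T P0 p pos B x b h) = (φ : B →+* B') (Jl a k T P0 p pos B x b h) := rfl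
  rw [this]
  simp only [Jl, LinearMap.coe_mk, AddHom.coe_mk]
  rw [← coeff_map, Polynomial.map_sum]
  simp only [Polynomial.map_mul, fam_map, map_aeval_poly, zf_map, MvPolynomial.pderiv_map,
    MvPolynomial.map_map, h0]

lemma Fv_add (x h : ∀ i, Fin (k i) → B) (hh : ∀ i l i' l', h i l * h i' l' = 0) (b : β) :
    Fv a k T P0 p pos B (x + h) b = Fv a k T P0 p pos B x b + Jl a k T P0 p pos B x b h := by
  simp only [Fv, Jl, LinearMap.coe_mk, AddHom.coe_mk]
  have h1 : zf (T b) (P0 b) (p b) B (x + h) = zf (T b) (P0 b) (p b) B x +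
      fun o => o.elim 0 fun i => fam 0 (p b i) B (h i) := by
    funext o
    rcases o with _ | i
    · simp [zf]
    · simp only [zf, Pi.add_apply, fam_add, Option.elim]
  rw [← coeff_add, h1, taylor, Fintype.sum_option]
  · simp
  · rintro (_ | i) (_ | i')
    · simp
    · simp
    · simp
    · exact fam_mul _ _ _ _ (hh i · i')

variable [Fintype β] [DecidableEq β]

/-- a solution together with a right inverse of the tangent map -/
def Pt (B : Type) [CommRing B] [Algebra R B] (x : ∀ i, Fin (k i) → B)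
    (Y : β → ∀ i, Fin (k i) → B) : Prop :=
  (∀ b, Fv a k T P0 p pos B x b = 0) ∧
    ∀ c b, Jl a k T P0 p pos B x b (Y c) = if c = b then 1 else 0

omit [Fintype β] in
lemma Pt.map (φ : B →ₐ[R] B') {x : ∀ i, Fin (k i) → B} {Y : β → ∀ i, Fin (k i) → B}
    (h : Pt a k T P0 p pos B x Y) :
    Pt a k T P0 p pos B' (fun i l => φ (x i l)) (fun c i l => φ (Y c i l)) := by
  refine ⟨fun b => ?_, fun c b => ?_⟩
  · rw [← Fv_map, h.1, map_zero]
  · rw [← Jl_map, h.2]; split_ifs <;> simp

lemma newton (I : Ideal B) (hI : I ^ 2 = ⊥) (x : ∀ i, Fin (k i) → B ⧸ I)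
    (Y : β → ∀ i, Fin (k i) → B ⧸ I) (h : Pt a k T P0 p pos (B ⧸ I) x Y) :
    ∃ (x' : ∀ i, Fin (k i) → B) (Y' : β → ∀ i, Fin (k i) → B), Pt a k T P0 p pos B x' Y' ∧
      (∀ i l, Ideal.Quotient.mkₐ R I (x' i l) = x i l) ∧
      ∀ c i l, Ideal.Quotient.mkₐ R I (Y' c i l) = Y c i l := by
  have hmul : ∀ u ∈ I, ∀ v ∈ I, u * v = 0 := by
    intro u hu v hv
    have : u * v ∈ I ^ 2 := by rw [sq]; exact Ideal.mul_mem_mul hu hv
    rwa [hI, Ideal.mem_bot] at this
  have hsurj := Ideal.Quotient.mkₐ_surjective R I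
  choose x1 hx1 using fun i l => hsurj (x i l)
  choose Y1 hY1 using fun c i l => hsurj (Y c i l)
  have hmem : ∀ u : B, Ideal.Quotient.mkₐ R I u = 0 ↔ u ∈ I := fun u => by
    rw [Ideal.Quotient.mkₐ_eq_mk, Ideal.Quotient.eq_zero_iff_mem]
  -- errors of the tangent equations, for any lift
  have hG : ∀ x2 : ∀ i, Fin (k i) → B, (∀ i l, Ideal.Quotient.mkₐ R I (x2 i l) = x i l) →
      ∀ c b, Jl a k T P0 p pos B x2 b (Y1 c) - (if c = b then 1 else 0) ∈ I := by
    intro x2 hx2 c b
    rw [← hmem, map_sub, Jl_map]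
    simp only [hx2, hY1]
    rw [h.2]; split_ifs <;> simp
  set E : β → B := fun b => Fv a k T P0 p pos B x1 b with hE
  have hEI : ∀ b, E b ∈ I := by
    intro b
    rw [← hmem, hE]
    simp only [Fv_map, hx1]
    rw [h.1]
  set H : ∀ i, Fin (k i) → B := -∑ c, E c • Y1 c with hH
  have hHI : ∀ i l, H i l ∈ I := by
    intro i l
    simp only [hH, Pi.neg_apply, Finset.sum_apply, Pi.smul_apply, smul_eq_mul]
    exact I.neg_mem (I.sum_mem fun c _ => I.mul_mem_right _ (hEI c))
  have hx2 : ∀ i l, Ideal.Quotient.mkₐ R I ((x1 + H) i l) = x i l := by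
    intro i l
    rw [Pi.add_apply, Pi.add_apply, map_add, hx1, (hmem _).2 (hHI i l), add_zero]
  set G : β → β → B := fun c b =>
    Jl a k T P0 p pos B (x1 + H) b (Y1 c) - (if c = b then 1 else 0) with hGdef
  have hGI : ∀ c b, G c b ∈ I := hG _ hx2
  refine ⟨x1 + H, fun c => Y1 c - ∑ c', G c c' • Y1 c', ⟨fun b => ?_, fun c b => ?_⟩, hx2, ?_⟩
  · rw [Fv_add _ _ _ _ _ _ _ _ fun i l i' l' => hmul _ (hHI i l) _ (hHI i' l'), hH, map_neg,
      map_sum]
    have : ∀ c, Jl a k T P0 p pos B x1 b (E c • Y1 c) = if c = b then E b else 0 := by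
      intro c
      have h1 := hmul _ (hEI c) _ (hG x1 hx1 c b)
      rw [map_smul, smul_eq_mul]
      split_ifs at h1 ⊢ with hc
      · subst hc; linear_combination h1
      · linear_combination h1
    simp only [this, Finset.sum_ite_eq', Finset.mem_univ, if_true]
    simp only [hE]
    ring
  · rw [map_sub, map_sum]
    have : ∀ c', Jl a k T P0 p pos B (x1 + H) b (G c c' • Y1 c') = if c' = b then G c b else 0 := by
      intro c'
      have h1 := hmul _ (hGI c c') _ (hGI c' b)
      rw [map_smul, smul_eq_mul]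
      have h2 : G c' b = Jl a k T P0 p pos B (x1 + H) b (Y1 c') - (if c' = b then 1 else 0) := rfl
      rw [h2] at h1
      split_ifs at h1 ⊢ with hc
      · subst hc; linear_combination h1
      · linear_combination h1
    simp only [this, Finset.sum_ite_eq', Finset.mem_univ, if_true]
    simp only [hGdef]
    ring
  · intro c i l
    have : (∑ c', G c c' • Y1 c') i l ∈ I := by
      simp only [Finset.sum_apply, Pi.smul_apply, smul_eq_mul]
      exact I.sum_mem fun c' _ => I.mul_mem_right _ (hGI c c')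
    change Ideal.Quotient.mkₐ R I (Y1 c i l - (∑ c', G c c' • Y1 c') i l) = _
    rw [map_sub, hY1, (hmem _).2 this, sub_zero]

/-- variables of the universal algebra -/
abbrev Var (β : Type) {ι : Type} (k : ι → ℕ) : Type := Option β × (Σ i, Fin (k i))

/-- relations of the universal algebra -/
noncomputable def rel : Option β × β → MvPolynomial (Var β k) R
  | (none, b) => Fv a k T P0 p pos _ (fun i l => MvPolynomial.X (none, ⟨i, l⟩)) b
  | (some c, b) => Jl a k T P0 p pos _ (fun i l => MvPolynomial.X (none, ⟨i, l⟩)) b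
      (fun i l => MvPolynomial.X (some c, ⟨i, l⟩)) - if c = b then 1 else 0

/-- the universal algebra -/
abbrev UA : Type := MvPolynomial (Var β k) R ⧸ Ideal.span (Set.range (rel a k T P0 p pos))

/-- universal solution -/
noncomputable def ux (o : Option β) (i : ι) (l : Fin (k i)) : UA a k T P0 p pos :=
  Ideal.Quotient.mkₐ R _ (MvPolynomial.X (o, ⟨i, l⟩))

omit [Fintype β] in
lemma ux_pt : Pt a k T P0 p pos (UA a k T P0 p pos) (ux a k T P0 p pos none)
    (fun c => ux a k T P0 p pos (some c)) := by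
  have h0 : ∀ j, Ideal.Quotient.mkₐ R (Ideal.span (Set.range (rel a k T P0 p pos)))
      (rel a k T P0 p pos j) = 0 := fun j => by
    rw [Ideal.Quotient.mkₐ_eq_mk, Ideal.Quotient.eq_zero_iff_mem]
    exact Ideal.subset_span ⟨j, rfl⟩
  refine ⟨fun b => ?_, fun c b => ?_⟩
  · have := h0 (none, b)
    rw [rel, Fv_map] at this
    exact this
  · have := h0 (some c, b)
    rw [rel, map_sub, Jl_map, sub_eq_zero] at this
    refine this.trans ?_
    split_ifs <;> simp

omit [Fintype β] in
lemma ux_lift {x : ∀ i, Fin (k i) → B} {Y : β → ∀ i, Fin (k i) → B}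
    (h : Pt a k T P0 p pos B x Y) : ∃ f : UA a k T P0 p pos →ₐ[R] B,
      (∀ i l, f (ux a k T P0 p pos none i l) = x i l) ∧
      ∀ c i l, f (ux a k T P0 p pos (some c) i l) = Y c i l := by
  let g : MvPolynomial (Var β k) R →ₐ[R] B :=
    MvPolynomial.aeval fun v => v.1.elim (x v.2.1 v.2.2) fun c => Y c v.2.1 v.2.2
  have hg : ∀ u ∈ Ideal.span (Set.range (rel a k T P0 p pos)), g u = 0 := by
    intro u hu
    have : Ideal.span (Set.range (rel a k T P0 p pos)) ≤ RingHom.ker g := by
      rw [Ideal.span_le]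
      rintro _ ⟨⟨o, b⟩, rfl⟩
      rw [SetLike.mem_coe, RingHom.mem_ker]
      rcases o with _ | c
      · rw [rel, Fv_map]
        simpa [g] using h.1 b
      · rw [rel, map_sub, Jl_map, sub_eq_zero]
        have h2 := h.2 c b
        simp only [g, MvPolynomial.aeval_X, Option.elim]
        refine h2.trans ?_
        split_ifs <;> simp
    exact this hu
  refine ⟨Ideal.Quotient.liftₐ _ g hg, fun i l => ?_, fun c i l => ?_⟩ <;> simp [ux, g]

lemma ua_smooth : Algebra.Smooth R (UA a k T P0 p pos) where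
  formallySmooth := by
    refine Algebra.FormallySmooth.of_comp_surjective fun B _ _ I hI g => ?_
    obtain ⟨x', Y', hpt, hx, hY⟩ := newton a k T P0 p pos I hI _ _
      ((ux_pt a k T P0 p pos).map a k T P0 p pos g)
    obtain ⟨f, hf1, hf2⟩ := ux_lift a k T P0 p pos hpt
    refine ⟨f, Ideal.Quotient.algHom_ext _ (MvPolynomial.algHom_ext ?_)⟩
    rintro ⟨o, i, l⟩
    rcases o with _ | c
    · exact (congrArg (Ideal.Quotient.mkₐ R I) (hf1 i l)).trans (hx i l)
    · exact (congrArg (Ideal.Quotient.mkₐ R I) (hf2 c i l)).trans (hY c i l)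
  finitePresentation :=
    Algebra.FinitePresentation.quotient (Submodule.fg_span (Set.finite_range _))

end

end SLA2

open SLA2 in
theorem sl2 : SL2 := by
  intro R ι β _ _ _ a k T P0 p pos k0 _ _ x0 h0
  classical
  choose Y0 hY0 using fun c : β => h0.2 (fun b => if c = b then 1 else 0)
  have hpt : Pt a k T P0 p pos k0 x0 Y0 := ⟨h0.1, fun c b => hY0 c b⟩
  obtain ⟨φ, hφ, -⟩ := ux_lift a k T P0 p pos hpt
  have hs := ua_smooth a k T P0 p pos
  have hu := ux_pt a k T P0 p pos
  refine ⟨UA a k T P0 p pos, inferInstance, inferInstance, inferInstance, inferInstance,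
    ux a k T P0 p pos none, φ, hφ, hu.1, fun v => ⟨∑ c, v c • ux a k T P0 p pos (some c),
      fun b => ?_⟩⟩
  change Jl a k T P0 p pos _ (ux a k T P0 p pos none) b _ = _
  rw [map_sum]
  simp only [map_smul, smul_eq_mul]
  have := hu.2
  simp only at this
  simp [this]

end Pool.Agent.MP_776d16_ag.H34G
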