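import Pool.Agent.MP_776d16_ag.H34G.Defs
import Pool.Agent.MP_776d16_ag.H34.Basic

/-
Row statements for the theorem: weighted hypersurface pairs near the Fermat member are log
rationally connected. Plan: team store file 776d16_planG.md.
-/

namespace Pool.Agent.MP_776d16_ag.H34G

open Polynomial Pool.Agent.MP_776d16_ag.H34
open MvPolynomial (pderiv IsWeightedHomogeneous)

/-- weights and degree -/
structure Wg {ι : Type} (W : Option ι → ℕ) (d : ℕ) : Prop where
  pos : ∀ o, 0 < W o
  lt : ∀ i, W (some i) < d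
  two : 2 ≤ d

/-- weights of a family with a Fermat member -/
structure Wf {ι : Type} [Fintype ι] (a : ι → ℕ) (b : ℕ) (W : Option ι → ℕ) (d : ℕ) : Prop where
  wt : Wt a (fun i => W (some i)) d
  mul : b * W none = d

lemma Wf.wg {ι : Type} [Fintype ι] {a : ι → ℕ} {b : ℕ} {W : Option ι → ℕ} {d : ℕ}
    (h : Wf a b W d) : Wg W d := by
  have hp : ∀ i, 0 < W (some i) := fun i => Nat.pos_of_mul_pos_left (h.wt.mul i ▸ h.wt.pos)
  have hl : ∀ i, 2 * W (some i) ≤ d := fun i =>
    h.wt.mul i ▸ Nat.mul_le_mul_right _ (h.wt.two i)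
  obtain ⟨i⟩ : Nonempty ι := Fintype.card_pos_iff.1 (by have := h.wt.card; omega)
  refine ⟨fun o => ?_, fun i => ?_, ?_⟩
  · rcases o with _ | i
    · exact Nat.pos_of_mul_pos_left (h.mul ▸ h.wt.pos)
    · exact hp i
  · have := hp i; have := hl i; omega
  · have := hp i; have := hl i; omega

/- Lemmas on weighted homogeneous polynomials evaluated at polynomials -/

section
variable {σ K : Type} [CommRing K] {W : σ → ℕ} {n : ℕ} {G : MvPolynomial σ K}

lemma aeval_scale {B : Type} [CommRing B] [Algebra K B] (hG : IsWeightedHomogeneous W G n)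
    (c : B) (z : σ → B) :
    MvPolynomial.aeval (fun o => c ^ W o * z o) G = c ^ n * MvPolynomial.aeval z G := by
  induction hG using MvPolynomial.IsWeightedHomogeneous.induction_on with
  | zero => simp
  | add p q _ _ hp hq => rw [map_add, map_add, hp, hq, mul_add]
  | monomial μ r hr =>
    rw [MvPolynomial.aeval_monomial, MvPolynomial.aeval_monomial, ← hr, Finsupp.weight_apply]
    simp only [Finsupp.prod, Finsupp.sum, mul_pow, Finset.prod_mul_distrib, ← pow_mul,
      Finset.prod_pow_eq_pow_sum, smul_eq_mul, mul_comm (W _)]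
    ring

lemma eval_scale (hG : IsWeightedHomogeneous W G n) (c : K) (z : σ → K) :
    MvPolynomial.eval (fun o => c ^ W o * z o) G = c ^ n * MvPolynomial.eval z G := by
  have := aeval_scale hG c z
  simpa only [MvPolynomial.aeval_eq_eval] using this

lemma eval_zero_of_pos (hG : IsWeightedHomogeneous W G n) (hn : 0 < n) :
    MvPolynomial.eval (0 : σ → K) G = 0 := by
  have := eval_scale hG 0 0
  rw [zero_pow hn.ne', zero_mul] at this
  rw [← this]
  congr 2
  funext o
  simp

private lemma prod_aux (s : Finset σ) (N : σ → ℕ) (f : σ → K[X])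
    (hf : ∀ o, (f o).natDegree ≤ N o) :
    (∏ o ∈ s, f o).natDegree ≤ ∑ o ∈ s, N o ∧
      reflect (∑ o ∈ s, N o) (∏ o ∈ s, f o) = ∏ o ∈ s, reflect (N o) (f o) := by
  classical
  induction s using Finset.induction_on with
  | empty => simp
  | insert o s ho ih =>
    rw [Finset.prod_insert ho, Finset.sum_insert ho, Finset.prod_insert ho]
    exact ⟨natDegree_mul_le.trans (add_le_add (hf o) ih.1), by rw [reflect_mul _ _ (hf o) ih.1, ih.2]⟩

private lemma aeval_aux (hG : IsWeightedHomogeneous W G n) {e : ℕ} {z : σ → K[X]}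
    (hz : ∀ o, (z o).natDegree ≤ e * W o) :
    (MvPolynomial.aeval z G).natDegree ≤ e * n ∧ reflect (e * n) (MvPolynomial.aeval z G) =
      MvPolynomial.aeval (fun o => reflect (e * W o) (z o)) G := by
  induction hG using MvPolynomial.IsWeightedHomogeneous.induction_on with
  | zero => simp
  | add p q _ _ hp hq =>
    rw [map_add, map_add, reflect_add, hp.2, hq.2]
    exact ⟨natDegree_add_le_of_degree_le hp.1 hq.1, rfl⟩
  | monomial μ r hr =>
    have h1 := prod_aux μ.support (fun o => μ o * (e * W o)) (fun o => z o ^ μ o)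
      (fun o => natDegree_pow_le_of_le _ (hz o))
    have h2 : ∑ o ∈ μ.support, μ o * (e * W o) = e * n := by
      rw [← hr, Finsupp.weight_apply, Finsupp.sum, Finset.mul_sum]
      exact Finset.sum_congr rfl fun o _ => by rw [smul_eq_mul]; ring
    rw [h2] at h1
    rw [MvPolynomial.aeval_monomial, MvPolynomial.aeval_monomial, algebraMap_eq, Finsupp.prod,
      Finsupp.prod, reflect_C_mul, h1.2]
    refine ⟨(natDegree_C_mul_le _ _).trans h1.1, ?_⟩
    simp only [BasicA.refl_pow (hz _)]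

lemma natDegree_aeval_le (hG : IsWeightedHomogeneous W G n) {e : ℕ} {z : σ → K[X]}
    (hz : ∀ o, (z o).natDegree ≤ e * W o) : (MvPolynomial.aeval z G).natDegree ≤ e * n :=
  (aeval_aux hG hz).1

lemma reflect_aeval (hG : IsWeightedHomogeneous W G n) {e : ℕ} {z : σ → K[X]}
    (hz : ∀ o, (z o).natDegree ≤ e * W o) : reflect (e * n) (MvPolynomial.aeval z G) =
      MvPolynomial.aeval (fun o => reflect (e * W o) (z o)) G :=
  (aeval_aux hG hz).2

lemma map_aeval_poly {K' : Type} [CommRing K'] (φ : K →+* K') (z : σ → K[X])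
    (G : MvPolynomial σ K) : (MvPolynomial.aeval z G).map φ =
      MvPolynomial.aeval (fun o => (z o).map φ) (MvPolynomial.map φ G) := by
  induction G using MvPolynomial.induction_on with
  | C r => simp
  | add p q hp hq => simp only [map_add, Polynomial.map_add, hp, hq]
  | mul_X p o hp =>
    simp only [map_mul, Polynomial.map_mul, hp, MvPolynomial.aeval_X, MvPolynomial.map_X]

lemma eval_aeval_poly (s : K) (z : σ → K[X]) (G : MvPolynomial σ K) :
    (MvPolynomial.aeval z G).eval s = MvPolynomial.eval (fun o => (z o).eval s) G := by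
  induction G using MvPolynomial.induction_on with
  | C r => simp
  | add p q hp hq => simp only [map_add, eval_add, hp, hq]
  | mul_X p o hp => simp only [map_mul, eval_mul, hp, MvPolynomial.aeval_X, MvPolynomial.eval_X]

lemma coeff_zero_aeval (z : σ → K[X]) (G : MvPolynomial σ K) :
    (MvPolynomial.aeval z G).coeff 0 = MvPolynomial.eval (fun o => (z o).coeff 0) G := by
  simp only [coeff_zero_eq_eval_zero, eval_aeval_poly]

lemma coeff_top_aeval (hG : IsWeightedHomogeneous W G n) {e : ℕ} {z : σ → K[X]}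
    (hz : ∀ o, (z o).natDegree ≤ e * W o) : (MvPolynomial.aeval z G).coeff (e * n) =
      MvPolynomial.eval (fun o => (z o).coeff (e * W o)) G := by
  have := congrArg (fun f => coeff f 0) (reflect_aeval hG hz)
  simpa only [coeff_reflect, revAt_zero, coeff_zero_aeval] using this

lemma homog_map {K' : Type} [CommRing K'] (φ : K →+* K') (hG : IsWeightedHomogeneous W G n) :
    IsWeightedHomogeneous W (MvPolynomial.map φ G) n := by
  intro μ hμ
  refine hG fun h => hμ ?_
  rw [MvPolynomial.coeff_map, h, map_zero]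

lemma homog_pderiv (hG : IsWeightedHomogeneous W G n) (o : σ) (ho : W o ≤ n) :
    IsWeightedHomogeneous W (pderiv o G) (n - W o) :=
  hG.pderiv (Nat.sub_add_cancel ho)

lemma eval_map_hom {K' : Type} [CommRing K'] (φ : K →+* K') (r : σ → K) (G : MvPolynomial σ K) :
    MvPolynomial.eval (fun o => φ (r o)) (MvPolynomial.map φ G) = φ (MvPolynomial.eval r G) := by
  rw [MvPolynomial.map_eval]; rfl

end

lemma fermat_homog (K : Type) [CommRing K] {ι : Type} [Fintype ι] {a : ι → ℕ} {b : ℕ}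
    {W : Option ι → ℕ} {d : ℕ} (h : Wf a b W d) : IsWeightedHomogeneous W (fermat K a b) d := by
  refine MvPolynomial.IsWeightedHomogeneous.sub
    (MvPolynomial.IsWeightedHomogeneous.sum _ _ _ fun i _ => ?_) ?_
  · have := (MvPolynomial.isWeightedHomogeneous_X K W (some i)).pow (a i)
    rwa [smul_eq_mul, h.wt.mul] at this
  · have := (MvPolynomial.isWeightedHomogeneous_X K W none).pow b
    rwa [smul_eq_mul, h.mul] at this

lemma fermat_map {K K' : Type} [CommRing K] [CommRing K'] (φ : K →+* K') {ι : Type} [Fintype ι]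
    (a : ι → ℕ) (b : ℕ) : MvPolynomial.map φ (fermat K a b) = fermat K' a b := by
  simp [fermat]

/-- very free with both ends and the `t`-coordinate fixed -/
def VF2 {K ι : Type} [CommRing K] [Fintype ι] (W : Option ι → ℕ) (d e : ℕ)
    (G : MvPolynomial (Option ι) K) (z : Option ι → K[X]) : Prop :=
  ∀ f : K[X], f.degree < ((e * d - 1 : ℕ) : WithBot ℕ) → ∃ h : ι → K[X],
    (∀ i, (h i).degree < ((e * W (some i) - 1 : ℕ) : WithBot ℕ)) ∧
      f = ∑ i, MvPolynomial.aeval z (pderiv (some i) G) * h i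

/-- a very free curve of degree `e` on `G = 0` with start `r` and end `π` -/
structure Crv2 {K ι : Type} [CommRing K] [Fintype ι] (W : Option ι → ℕ) (d e : ℕ)
    (G : MvPolynomial (Option ι) K) (z : Option ι → K[X]) (r π : Option ι → K) : Prop where
  pos : 0 < e
  deg : ∀ o, (z o).natDegree ≤ e * W o
  start : ∀ o, (z o).coeff 0 = r o
  stop : ∀ o, (z o).coeff (e * W o) = π o
  eqn : MvPolynomial.aeval z G = 0
  vf : VF2 W d e G z

/-- two very free curves with constant `t`-coordinate and a common end -/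
def PG {K ι : Type} [CommRing K] [Fintype ι] (W : Option ι → ℕ) (d : ℕ)
    (G : MvPolynomial (Option ι) K) (r1 r2 : Option ι → K) : Prop :=
  ∃ (e1 e2 : ℕ) (z1 z2 : Option ι → K[X]) (v : Option ι → K),
    Crv2 W d e1 G z1 r1 v ∧ Crv2 W d e2 G z2 r2 v ∧ z1 none = C (r1 none) ∧ z2 none = C (r2 none)

/- Row Basic -/

def Map2 : Prop :=
  ∀ (K K' ι : Type) [CommRing K] [CommRing K'] [Fintype ι] (W : Option ι → ℕ) (d e : ℕ)
    (G : MvPolynomial (Option ι) K) (z : Option ι → K[X]) (r π : Option ι → K) (φ : K →+* K'),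
    Crv2 W d e G z r π → Crv2 W d e (MvPolynomial.map φ G) (fun o => (z o).map φ)
      (fun o => φ (r o)) (fun o => φ (π o))

def Scale2 : Prop :=
  ∀ (K ι : Type) [Field K] [Fintype ι] (W : Option ι → ℕ) (d e : ℕ), Wg W d →
    ∀ (G : MvPolynomial (Option ι) K), IsWeightedHomogeneous W G d →
    ∀ (z : Option ι → K[X]) (r π : Option ι → K) (c : K), c ≠ 0 → Crv2 W d e G z r π →
    Crv2 W d e G (fun o => C (c ^ W o) * z o) (fun o => c ^ W o * r o) (fun o => c ^ W o * π o)

def Reflect2 : Prop :=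
  ∀ (K ι : Type) [CommRing K] [Fintype ι] (W : Option ι → ℕ) (d e : ℕ), Wg W d →
    ∀ (G : MvPolynomial (Option ι) K), IsWeightedHomogeneous W G d →
    ∀ (z : Option ι → K[X]) (r π : Option ι → K), Crv2 W d e G z r π →
    Crv2 W d e G (fun o => reflect (e * W o) (z o)) π r

def Ends2 : Prop :=
  ∀ (K ι : Type) [CommRing K] [Fintype ι] (W : Option ι → ℕ) (d e : ℕ), Wg W d →
    ∀ (G : MvPolynomial (Option ι) K), IsWeightedHomogeneous W G d →
    ∀ (z : Option ι → K[X]) (r π : Option ι → K), Crv2 W d e G z r π →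
    MvPolynomial.eval r G = 0 ∧ MvPolynomial.eval π G = 0 ∧
      (∃ h : ι → K, ∑ i, MvPolynomial.eval r (pderiv (some i) G) * h i = 1) ∧
      ∃ h : ι → K, ∑ i, MvPolynomial.eval π (pderiv (some i) G) * h i = 1

def OfFermat : Prop :=
  ∀ (K ι : Type) [CommRing K] [Fintype ι] (a : ι → ℕ) (b : ℕ) (W : Option ι → ℕ) (d e : ℕ),
    Wf a b W d → ∀ (x : ι → K[X]) (r π : ι → K) (t : K),
    Crv a (fun i => W (some i)) d e x r π (C (t ^ b)) →
    Crv2 W d e (fermat K a b) (fun o => o.elim (C t) x) (fun o => o.elim t r)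
      (fun o => o.elim 0 π)

/- Row SL -/

/-- the family of curves with `t`-coordinate `T` -/
noncomputable def zf {R ι : Type} [CommRing R] {k : ι → ℕ} (T : R[X]) (P0 : ι → R[X])
    (p : ∀ i, Fin (k i) → R[X]) (B : Type) [CommRing B] [Algebra R B]
    (x : ∀ i, Fin (k i) → B) : Option ι → B[X]
  | none => T.map (algebraMap R B)
  | some i => fam (P0 i) (p i) B (x i)

/-- a solution at which the tangent map is onto -/
def Sol2 {R ι β : Type} [CommRing R] [Fintype ι] (G : MvPolynomial (Option ι) R) (k : ι → ℕ)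
    (T : β → R[X]) (P0 : β → ι → R[X]) (p : β → ∀ i, Fin (k i) → R[X]) (pos : β → ℕ)
    (B : Type) [CommRing B] [Algebra R B] (x : ∀ i, Fin (k i) → B) : Prop :=
  (∀ b, (MvPolynomial.aeval (zf (T b) (P0 b) (p b) B x)
    (MvPolynomial.map (algebraMap R B) G)).coeff (pos b) = 0) ∧
  ∀ v : β → B, ∃ h : ∀ i, Fin (k i) → B, ∀ b,
    (∑ i, MvPolynomial.aeval (zf (T b) (P0 b) (p b) B x)
      (pderiv (some i) (MvPolynomial.map (algebraMap R B) G)) *
        fam 0 (p b i) B (h i)).coeff (pos b) = v b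

def SL2 : Prop :=
  ∀ (R ι β : Type) [CommRing R] [Fintype ι] [Fintype β] (G : MvPolynomial (Option ι) R)
    (k : ι → ℕ) (T : β → R[X]) (P0 : β → ι → R[X]) (p : β → ∀ i, Fin (k i) → R[X])
    (pos : β → ℕ) (k0 : Type) [CommRing k0] [Algebra R k0] (x0 : ∀ i, Fin (k i) → k0),
    Sol2 G k T P0 p pos k0 x0 →
    ∃ (A : Type) (_ : CommRing A) (_ : Algebra R A), Module.Flat R A ∧
      Algebra.FinitePresentation R A ∧
      ∃ (x : ∀ i, Fin (k i) → A) (φ : A →ₐ[R] k0), (∀ i l, φ (x i l) = x0 i l) ∧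
        Sol2 G k T P0 p pos A x

/- Row SLpoly -/

def SLpoly2 : Prop :=
  ∀ (R ι : Type) [CommRing R] [Fintype ι] (W : Option ι → ℕ) (d e : ℕ), Wg W d →
    ∀ (G : MvPolynomial (Option ι) R), IsWeightedHomogeneous W G d →
    ∀ (r π : Option ι → R), MvPolynomial.eval r G = 0 → MvPolynomial.eval π G = 0 → π none = 0 →
    ∀ (k0 : Type) [CommRing k0] [Algebra R k0] (z0 : Option ι → k0[X]),
    Crv2 W d e (MvPolynomial.map (algebraMap R k0) G) z0 (fun o => algebraMap R k0 (r o))
      (fun o => algebraMap R k0 (π o)) → z0 none = C (algebraMap R k0 (r none)) →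
    ∃ (A : Type) (_ : CommRing A) (_ : Algebra R A), Module.Flat R A ∧
      Algebra.FinitePresentation R A ∧ Nonempty (A →ₐ[R] k0) ∧ ∃ z : Option ι → A[X],
        Crv2 W d e (MvPolynomial.map (algebraMap R A) G) z (fun o => algebraMap R A (r o))
          (fun o => algebraMap R A (π o)) ∧ z none = C (algebraMap R A (r none))

/- Row Spread -/

def EndSm : Prop :=
  ∀ (R ι : Type) [CommRing R] [Fintype ι] (G : MvPolynomial (Option ι) R)
    (k0 : Type) [CommRing k0] [Algebra R k0] (π0 : Option ι → k0), π0 none = 0 →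
    MvPolynomial.eval π0 (MvPolynomial.map (algebraMap R k0) G) = 0 →
    (∃ h : ι → k0, ∑ i, MvPolynomial.eval π0
      (pderiv (some i) (MvPolynomial.map (algebraMap R k0) G)) * h i = 1) →
    ∃ (A : Type) (_ : CommRing A) (_ : Algebra R A), Module.Flat R A ∧
      Algebra.FinitePresentation R A ∧ ∃ (π : Option ι → A) (φ : A →ₐ[R] k0), π none = 0 ∧
        MvPolynomial.eval π (MvPolynomial.map (algebraMap R A) G) = 0 ∧ ∀ o, φ (π o) = π0 o

def Spread1 : Prop :=
  ∀ (R ι : Type) [CommRing R] [Fintype ι] (W : Option ι → ℕ) (d e : ℕ), Wg W d →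
    ∀ (G : MvPolynomial (Option ι) R), IsWeightedHomogeneous W G d →
    ∀ (r : Option ι → R), MvPolynomial.eval r G = 0 →
    ∀ (k0 : Type) [CommRing k0] [Algebra R k0] (z0 : Option ι → k0[X]) (π0 : Option ι → k0),
    Crv2 W d e (MvPolynomial.map (algebraMap R k0) G) z0 (fun o => algebraMap R k0 (r o)) π0 →
    z0 none = C (algebraMap R k0 (r none)) →
    ∃ (A : Type) (_ : CommRing A) (_ : Algebra R A), Module.Flat R A ∧
      Algebra.FinitePresentation R A ∧ Nonempty (A →ₐ[R] k0) ∧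
      ∃ (z : Option ι → A[X]) (π : Option ι → A),
        Crv2 W d e (MvPolynomial.map (algebraMap R A) G) z (fun o => algebraMap R A (r o)) π ∧
          z none = C (algebraMap R A (r none))

def Spread : Prop :=
  ∀ (R ι : Type) [CommRing R] [Fintype ι] (W : Option ι → ℕ) (d : ℕ), Wg W d →
    ∀ (G : MvPolynomial (Option ι) R), IsWeightedHomogeneous W G d →
    ∀ (r1 r2 : Option ι → R), MvPolynomial.eval r1 G = 0 → MvPolynomial.eval r2 G = 0 →
    ∀ (k0 : Type) [CommRing k0] [Algebra R k0],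
    PG W d (MvPolynomial.map (algebraMap R k0) G) (fun o => algebraMap R k0 (r1 o))
      (fun o => algebraMap R k0 (r2 o)) →
    ∃ (A : Type) (_ : CommRing A) (_ : Algebra R A), Module.Flat R A ∧
      Algebra.FinitePresentation R A ∧ Nonempty (A →ₐ[R] k0) ∧
      PG W d (MvPolynomial.map (algebraMap R A) G) (fun o => algebraMap R A (r1 o))
        (fun o => algebraMap R A (r2 o))

/- Row PT -/

def PTb2 : Prop :=
  ∀ (K R A : Type) [Field K] [IsAlgClosed K] [CommRing R] [CommRing A] [Algebra R A]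
    [Algebra R K], Function.Injective (algebraMap R K) → Module.Flat R A →
    Algebra.FiniteType R A → Nontrivial A → Nonempty (A →ₐ[R] K)

def PTc2 : Prop :=
  ∀ (K R A1 A2 : Type) [Field K] [IsAlgClosed K] [CommRing R] [IsDomain R] [Algebra K R]
    [CommRing A1] [CommRing A2] [Algebra R A1] [Algebra R A2], Algebra.FiniteType K R →
    Module.Flat R A1 → Algebra.FiniteType R A1 → Nontrivial A1 →
    Module.Flat R A2 → Algebra.FiniteType R A2 → Nontrivial A2 →
    ∃ (χ : R →ₐ[K] K) (ψ1 : A1 →+* K) (ψ2 : A2 →+* K),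
      (∀ y, ψ1 (algebraMap R A1 y) = χ y) ∧ ∀ y, ψ2 (algebraMap R A2 y) = χ y

def PTo : Prop :=
  ∀ (R A J : Type) [CommRing R] [CommRing A] [Algebra R A] (χ : J → R →+* ℂ),
    (∀ f : R, (∀ j, χ j f = 0) → f = 0) → Module.Flat R A → Algebra.FinitePresentation R A →
    Nontrivial A → ∃ (j : J) (ψ : A →+* ℂ), ∀ y, ψ (algebraMap R A y) = χ j y

/- Row Prime -/

/-- the equation of the boundary -/
noncomputable def atD {K ι : Type} [CommRing K] (G : MvPolynomial (Option ι) K) :
    MvPolynomial ι K :=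
  MvPolynomial.aeval (fun o : Option ι => o.elim 0 MvPolynomial.X) G

def FermIrr : Prop :=
  ∀ (k ι : Type) [Field k] [IsAlgClosed k] [Fintype ι] (a w : ι → ℕ) (d : ℕ), Wt a w d →
    (∃ i, (a i : k) ≠ 0) → Irreducible (∑ i, MvPolynomial.X i ^ a i : MvPolynomial ι k)

def RedPrime : Prop :=
  ∀ (K k ι : Type) [Field K] [Field k] [Fintype ι] (O : ValuationSubring K) (ρ : O →+* k),
    (∀ y ∈ IsLocalRing.maximalIdeal O, ρ y = 0) → ∀ (w : ι → ℕ) (d : ℕ), (∀ i, 0 < w i) →
    ∀ g : MvPolynomial ι O, IsWeightedHomogeneous w g d → Irreducible (MvPolynomial.map ρ g) →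
    Prime (MvPolynomial.map O.subtype g)

/- Row Move -/

def Move2 : Prop :=
  ∀ (K ι : Type) [Field K] [IsAlgClosed K] [Fintype ι] (W : Option ι → ℕ) (d e1 e2 : ℕ),
    Wg W d → ∀ (G : MvPolynomial (Option ι) K), IsWeightedHomogeneous W G d → Prime (atD G) →
    ∀ (z1 z2 : Option ι → K[X]) (r1 r2 π1 π2 : Option ι → K),
    Crv2 W d e1 G z1 r1 π1 → z1 none = C (r1 none) → Crv2 W d e2 G z2 r2 π2 →
    z2 none = C (r2 none) → PG W d G r1 r2

/- Row Core -/

def Core : Prop :=
  ∀ (ι : Type) [Fintype ι] (a : ι → ℕ) (b : ℕ) (W : Option ι → ℕ) (d : ℕ), Wf a b W d →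
    ∃ p : ℕ, p.Prime ∧ ∀ (K : Type) [Field K] [IsAlgClosed K] (O : ValuationSubring K),
      (p : O) ∈ IsLocalRing.maximalIdeal O → ∀ G : MvPolynomial (Option ι) O,
      IsWeightedHomogeneous W G d →
      (∀ μ, MvPolynomial.coeff μ (G - fermat O a b) ∈ IsLocalRing.maximalIdeal O) →
      ∀ r1 r2 : Option ι → K, r1 ≠ 0 → r2 ≠ 0 →
      MvPolynomial.eval r1 (MvPolynomial.map O.subtype G) = 0 →
      MvPolynomial.eval r2 (MvPolynomial.map O.subtype G) = 0 →
      PG W d (MvPolynomial.map O.subtype G) r1 r2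

/- Row Open -/

def Open : Prop :=
  ∀ (ι : Type) [Fintype ι] (a : ι → ℕ) (b : ℕ) (W : Option ι → ℕ) (d : ℕ), Wf a b W d →
    ∃ Δ : MvPolynomial (Option ι →₀ ℕ) ℂ,
      MvPolynomial.eval (fun μ => MvPolynomial.coeff μ (fermat ℂ a b)) Δ ≠ 0 ∧
      ∀ G : MvPolynomial (Option ι) ℂ, IsWeightedHomogeneous W G d →
        MvPolynomial.eval (fun μ => MvPolynomial.coeff μ G) Δ ≠ 0 →
        ∀ r1 r2 : Option ι → ℂ, r1 ≠ 0 → r2 ≠ 0 → MvPolynomial.eval r1 G = 0 →
          MvPolynomial.eval r2 G = 0 → PG W d G r1 r2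

/- Row Glue -/

/-- the points `r1` and `r2` are joined by a curve with `t`-coordinate a power of `κ s + μ` -/
def Joined {ι : Type} (W : Option ι → ℕ) (G : MvPolynomial (Option ι) ℂ) (κ : ℂ)
    (r1 r2 : Option ι → ℂ) : Prop :=
  ∃ (e : ℕ) (μ : ℂ) (P : Option ι → ℂ[X]), 0 < e ∧ μ ≠ 0 ∧ (∀ o, (P o).natDegree ≤ e * W o) ∧
    (∀ o, (P o).coeff 0 = μ ^ (e * W o) * r1 o) ∧ (∀ o, (P o).coeff (e * W o) = r2 o) ∧
    MvPolynomial.aeval P G = 0 ∧ P none = (C κ * X + C μ) ^ (e * W none) ∧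
    ∃ i, (P (some i)).eval (-μ) ≠ 0

def Glue2 : Prop :=
  ∀ (ι : Type) [Fintype ι] (W : Option ι → ℕ) (d e1 e2 : ℕ), Wg W d →
    ∀ (G : MvPolynomial (Option ι) ℂ), IsWeightedHomogeneous W G d →
    ∀ (y1 y2 : Option ι → ℂ[X]) (v r1 r2 : Option ι → ℂ) (κ : ℂ), (κ = 0 ∨ κ = 1) →
    Crv2 W d e1 G y1 v r1 → y1 none = X ^ (e1 * W none) →
    Crv2 W d e2 G y2 v r2 → y2 none = C κ * X ^ (e2 * W none) → Joined W G κ r1 r2

/- Row Final -/

def Final2 : Prop :=
  ∀ (ι : Type) [Fintype ι] (W : Option ι → ℕ) (d : ℕ), Wg W d →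
    ∀ (G : MvPolynomial (Option ι) ℂ), IsWeightedHomogeneous W G d →
    (∀ (r1 r2 : Option ι → ℂ) (κ : ℂ), (κ = 0 ∨ κ = 1) → r1 none = 1 → r2 none = κ → r2 ≠ 0 →
      MvPolynomial.eval r1 G = 0 → MvPolynomial.eval r2 G = 0 → Joined W G κ r1 r2) →
    LogRC W (zs W G) (zsD W G)

end Pool.Agent.MP_776d16_ag.H34G
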